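import Pool.Agent.Helper78K9.LC.Stm
import Pool.Agent.Helper62K9.SD.Main

/-!
# The two lifts of a reflection cover have the same characteristic polynomial
-/

set_option autoImplicit false

namespace Pool.Agent.Helper78K9.LC

open Matrix
open Pool.Agent.Helper62K9.SD (lift Alike doubleIso charpoly_lift)

namespace ChpL

variable {U : Type} [Fintype U] (H : SimpleGraph U) (q : ℕ) [hq : Fact q.Prime]
  (c : Sym2 U → ZMod q)

/-- the intertwiner -/
def rho : (VV U q → ℚ) →ₗ[ℚ] (VV U q → ℚ) where
  toFun f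
    | .inl (u, x) => f (.inl (u, x - 1)) - f (.inl (u, x + 1)) + f (.inr u)
    | .inr u => ∑ x, f (.inl (u, x))
  map_add' f g := by
    ext (⟨u, x⟩ | u)
    · simp only [Pi.add_apply]
      ring
    · simp only [Pi.add_apply, Finset.sum_add_distrib]
  map_smul' c f := by
    ext (⟨u, x⟩ | u)
    · simp only [Pi.smul_apply, smul_eq_mul, RingHom.id_apply]
      ring
    · simp only [Pi.smul_apply, smul_eq_mul, RingHom.id_apply, Finset.mul_sum]

open Classical in
/-- the signed adjacency operator -/
noncomputable def delta : (VV U q → ℚ) →ₗ[ℚ] (VV U q → ℚ) where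
  toFun f
    | .inl (u, x) => - ∑ v, if H.Adj u v then f (.inl (v, c s(u, v) - x)) else 0
    | .inr u => ∑ v, if H.Adj u v then f (.inr v) else 0
  map_add' f g := by
    ext (⟨u, x⟩ | u)
    · simp only [Pi.add_apply]
      rw [← neg_add, ← Finset.sum_add_distrib]
      congr 1
      refine Finset.sum_congr rfl fun t _ => ?_
      split_ifs <;> simp
    · simp only [Pi.add_apply]
      rw [← Finset.sum_add_distrib]
      refine Finset.sum_congr rfl fun t _ => ?_
      split_ifs <;> simp
  map_smul' c f := by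
    ext (⟨u, x⟩ | u)
    · simp only [Pi.smul_apply, smul_eq_mul, RingHom.id_apply, mul_neg, Finset.mul_sum, mul_ite,
        mul_zero]
    · simp only [Pi.smul_apply, smul_eq_mul, RingHom.id_apply, Finset.mul_sum, mul_ite,
        mul_zero]

omit [Fintype U] in
theorem rho_inl (f : VV U q → ℚ) (u : U) (x : ZMod q) :
    rho q f (.inl (u, x)) = f (.inl (u, x - 1)) - f (.inl (u, x + 1)) + f (.inr u) := rfl

omit [Fintype U] in
theorem rho_inr (f : VV U q → ℚ) (u : U) : rho q f (.inr u) = ∑ x, f (.inl (u, x)) := rfl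

open Classical in
theorem delta_inl (f : VV U q → ℚ) (u : U) (x : ZMod q) :
    delta H q c f (.inl (u, x)) =
      - ∑ v, if H.Adj u v then f (.inl (v, c s(u, v) - x)) else 0 := rfl

open Classical in
theorem delta_inr (f : VV U q → ℚ) (u : U) :
    delta H q c f (.inr u) = ∑ v, if H.Adj u v then f (.inr v) else 0 := rfl

theorem rho_delta (f : VV U q → ℚ) : rho q (delta H q c f) = - delta H q c (rho q f) := by
  classical
  funext v
  obtain ⟨u, x⟩ | u := v
  · rw [Pi.neg_apply, rho_inl, delta_inl, delta_inl, delta_inl, delta_inr, neg_neg, sub_neg_eq_add,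
      ← Finset.sum_neg_distrib, ← Finset.sum_add_distrib, ← Finset.sum_add_distrib]
    refine Finset.sum_congr rfl fun t _ => ?_
    by_cases h : H.Adj u t
    · simp only [h, if_true]
      rw [rho_inl]
      have e1 : c s(u, t) - (x - 1) = c s(u, t) - x + 1 := by ring
      have e2 : c s(u, t) - (x + 1) = c s(u, t) - x - 1 := by ring
      rw [e1, e2]
      ring
    · simp [h]
  · rw [Pi.neg_apply, rho_inr, delta_inr]
    simp only [delta_inl]
    rw [Finset.sum_neg_distrib, Finset.sum_comm]
    congr 1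
    refine Finset.sum_congr rfl fun t _ => ?_
    by_cases h : H.Adj u t
    · simp only [h, if_true]
      rw [rho_inr]
      exact Fintype.sum_equiv (Equiv.subLeft (c s(u, t))) _ _ fun x => rfl
    · simp [h]

omit [Fintype U] in
theorem rho_injective (h2 : q ≠ 2) :
    Function.Injective (rho q : (VV U q → ℚ) →ₗ[ℚ] (VV U q → ℚ)) := by
  rw [injective_iff_map_eq_zero]
  intro f hf
  have hq0 : (q : ℚ) ≠ 0 := by exact_mod_cast hq.out.ne_zero
  have h1 : ∀ s x, f (.inl (s, x - 1)) - f (.inl (s, x + 1)) + f (.inr s) = 0 := fun s x => by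
    rw [← rho_inl, hf]
    rfl
  have h3 : ∀ s, ∑ x, f (.inl (s, x)) = 0 := fun s => by
    rw [← rho_inr, hf]
    rfl
  have h4 : ∀ s, f (.inr s) = 0 := by
    intro s
    have h5 : ∑ x : ZMod q, (f (.inl (s, x - 1)) - f (.inl (s, x + 1)) + f (.inr s)) = 0 :=
      Finset.sum_eq_zero fun x _ => h1 s x
    rw [Finset.sum_add_distrib, Finset.sum_sub_distrib, Finset.sum_const, Finset.card_univ,
      ZMod.card, nsmul_eq_mul] at h5
    have e1 : ∑ x : ZMod q, f (.inl (s, x - 1)) = 0 :=
      (Fintype.sum_equiv (Equiv.subRight (1 : ZMod q)) _ (fun x => f (.inl (s, x)))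
        fun x => rfl).trans (h3 s)
    have e2 : ∑ x : ZMod q, f (.inl (s, x + 1)) = 0 :=
      (Fintype.sum_equiv (Equiv.addRight (1 : ZMod q)) _ (fun x => f (.inl (s, x)))
        fun x => rfl).trans (h3 s)
    rw [e1, e2, sub_zero, zero_add] at h5
    exact (mul_eq_zero.1 h5).resolve_left hq0
  have h5 : ∀ s x, f (.inl (s, x + 2)) = f (.inl (s, x)) := by
    intro s x
    have := h1 s (x + 1)
    rw [h4, add_zero, sub_eq_zero] at this
    have e1 : x + 1 - 1 = x := by ring
    have e2 : x + 1 + 1 = x + 2 := by ring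
    rw [e1, e2] at this
    exact this.symm
  have h6 : ∀ (k : ℕ) s, f (.inl (s, (k : ZMod q) * 2)) = f (.inl (s, 0)) := by
    intro k s
    induction k with
    | zero => simp
    | succ k ih =>
      have e : ((k + 1 : ℕ) : ZMod q) * 2 = (k : ZMod q) * 2 + 2 := by
        push_cast
        ring
      rw [e, h5, ih]
  have h20 : (2 : ZMod q) ≠ 0 := by
    intro h
    have : (q : ℕ) ∣ 2 := (ZMod.natCast_eq_zero_iff 2 q).1 (by exact_mod_cast h)
    exact h2 ((Nat.prime_dvd_prime_iff_eq hq.out Nat.prime_two).1 this)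
  have h7 : ∀ s x, f (.inl (s, x)) = f (.inl (s, 0)) := by
    intro s x
    have := h6 (x / 2).val s
    rwa [ZMod.natCast_zmod_val, div_mul_cancel₀ _ h20] at this
  funext v
  obtain ⟨s, x⟩ | s := v
  · have h8 := h3 s
    simp only [h7 s _] at h8
    rw [Finset.sum_const, Finset.card_univ, ZMod.card, nsmul_eq_mul] at h8
    rw [h7 s x]
    exact (mul_eq_zero.1 h8).resolve_left hq0
  · exact h4 s

open Classical in
theorem diff_mulVec (f : VV U q → ℚ) :
    (((base H q).adjMatrix ℚ - (cover H q c).adjMatrix ℚ) *ᵥ f) = delta H q c f := by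
  have hent : ∀ u v, ((base H q).adjMatrix ℚ - (cover H q c).adjMatrix ℚ) u v =
      match u, v with
      | .inl (u, x), .inl (v, y) => if H.Adj u v ∧ x + y = c s(u, v) then -1 else 0
      | .inr u, .inr v => if H.Adj u v then 1 else 0
      | _, _ => 0 := by
    intro u v
    rw [Matrix.sub_apply, SimpleGraph.adjMatrix_apply, SimpleGraph.adjMatrix_apply]
    obtain ⟨x, s⟩ | s := u <;> obtain ⟨y, t⟩ | t := v
    · have h1 : ¬ (base H q).Adj (Sum.inl (x, s)) (Sum.inl (y, t)) := fun h => h
      show _ = if H.Adj x y ∧ s + t = c s(x, y) then (-1 : ℚ) else 0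
      by_cases h : H.Adj x y ∧ s + t = c s(x, y)
      · have h2 : (cover H q c).Adj (Sum.inl (x, s)) (Sum.inl (y, t)) := h
        rw [if_neg h1, if_pos h2, if_pos h, zero_sub]
      · have h2 : ¬ (cover H q c).Adj (Sum.inl (x, s)) (Sum.inl (y, t)) := h
        rw [if_neg h1, if_neg h2, if_neg h, sub_zero]
    · simp [base, cover]
    · simp [base, cover]
    · have h1 : ¬ (cover H q c).Adj (Sum.inr s) (Sum.inr t) := fun h => h
      show _ = if H.Adj s t then (1 : ℚ) else 0
      by_cases h : H.Adj s t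
      · have h2 : (base H q).Adj (Sum.inr s) (Sum.inr t) := h
        rw [if_neg h1, if_pos h2, if_pos h, sub_zero]
      · have h2 : ¬ (base H q).Adj (Sum.inr s) (Sum.inr t) := h
        rw [if_neg h1, if_neg h2, if_neg h, sub_zero]
  funext u
  rw [Matrix.mulVec, dotProduct, Fintype.sum_sum_type, Fintype.sum_prod_type]
  simp only [hent]
  obtain ⟨u, x⟩ | u := u
  · rw [delta_inl]
    simp only [zero_mul, Finset.sum_const_zero, add_zero]
    rw [← Finset.sum_neg_distrib]
    refine Finset.sum_congr rfl fun t _ => ?_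
    by_cases h : H.Adj u t
    · simp only [h, if_true, true_and]
      rw [Finset.sum_eq_single (c s(u, t) - x)]
      · have : x + (c s(u, t) - x) = c s(u, t) := by ring
        simp [this]
      · intro y _ hy
        have : x + y ≠ c s(u, t) := fun h' => hy (by rw [← h']; ring)
        simp [this]
      · simp
    · simp [h]
  · rw [delta_inr]
    simp

open Classical in
theorem charpoly_eq (h2 : q ≠ 2) [DecidableEq (VV U q × Bool)] :
    ((lift (base H q) (cover H q c)).adjMatrix ℚ).charpoly =
      ((lift (cover H q c) (base H q)).adjMatrix ℚ).charpoly := by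
  set e := LinearEquiv.ofInjectiveEndo (rho q) (rho_injective (U := U) q h2) with he
  have hcoe : ∀ f, e f = rho q f := fun f => rfl
  set R := LinearMap.toMatrix' (rho q : (VV U q → ℚ) →ₗ[ℚ] (VV U q → ℚ)) with hR
  set S := LinearMap.toMatrix' (e.symm : (VV U q → ℚ) →ₗ[ℚ] (VV U q → ℚ)) with hS
  have hRS : R * S = 1 := by
    rw [hR, hS, ← LinearMap.toMatrix'_mul]
    have : rho q * (e.symm : (VV U q → ℚ) →ₗ[ℚ] (VV U q → ℚ)) = 1 := by
      refine LinearMap.ext fun f => ?_
      rw [Module.End.mul_apply, LinearEquiv.coe_coe, ← hcoe, LinearEquiv.apply_symm_apply,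
        Module.End.one_apply]
    rw [this, LinearMap.toMatrix'_one]
  refine charpoly_lift _ _ R S hRS ?_
  set A := (base H q).adjMatrix ℚ - (cover H q c).adjMatrix ℚ with hA
  have hA' : (cover H q c).adjMatrix ℚ - (base H q).adjMatrix ℚ = -A := by
    rw [hA, neg_sub]
  rw [hA']
  have hRv : ∀ f, R *ᵥ f = rho q f := fun f => by
    rw [hR, LinearMap.toMatrix'_mulVec]
  have hAv : ∀ f, A *ᵥ f = delta H q c f := fun f => diff_mulVec H q c f
  apply Matrix.toLin'.injective
  refine LinearMap.ext fun f => ?_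
  rw [Matrix.toLin'_apply, Matrix.toLin'_apply, ← Matrix.mulVec_mulVec, ← Matrix.mulVec_mulVec,
    hAv, hRv, hRv, Matrix.neg_mulVec, hAv, rho_delta]

end ChpL

/-- [CHP] -/
theorem chp : S_CHP := fun U _ H q _ hq h2 c =>
  ⟨@ChpL.charpoly_eq U _ H q ⟨hq⟩ c h2 fun a b => Classical.propDecidable (a = b),
    ⟨doubleIso _ _⟩⟩

end Pool.Agent.Helper78K9.LC
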