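import Pool.Agent.Helper78K9.LC.Stm2
import Pool.Agent.Helper78K9.LC.Chp

/-!
# The two lifts with the cross edges have the same characteristic polynomial
-/

set_option autoImplicit false

namespace Pool.Agent.Helper78K9.LC

open Matrix
open Pool.Agent.Helper62K9.SD (lift Alike doubleIso charpoly_lift)

namespace ChpxL

open ChpL

variable {U : Type} [Fintype U] (H : SimpleGraph U) (q : ℕ) [hq : Fact q.Prime]
  (c : Sym2 U → ZMod q)

open Classical in
theorem diff_eq : (base H q ⊔ cross U q).adjMatrix ℚ - (cover H q c ⊔ cross U q).adjMatrix ℚ =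
    (base H q).adjMatrix ℚ - (cover H q c).adjMatrix ℚ := by
  ext u v
  rw [Matrix.sub_apply, Matrix.sub_apply, SimpleGraph.adjMatrix_apply, SimpleGraph.adjMatrix_apply,
    SimpleGraph.adjMatrix_apply, SimpleGraph.adjMatrix_apply]
  simp only [SimpleGraph.sup_adj]
  by_cases h1 : (cross U q).Adj u v
  · have h2 : ¬ (base H q).Adj u v := by
      obtain ⟨x, s⟩ | s := u <;> obtain ⟨y, t⟩ | t := v
      · exact fun h => h
      · exact fun h => h
      · exact fun h => h
      · exact absurd h1 (fun h => h)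
    have h3 : ¬ (cover H q c).Adj u v := by
      obtain ⟨x, s⟩ | s := u <;> obtain ⟨y, t⟩ | t := v
      · exact absurd h1 (fun h => h)
      · exact fun h => h
      · exact fun h => h
      · exact fun h => h
    simp [h1, h2, h3]
  · simp [h1]

open Classical in
theorem charpoly_eq (h2 : q ≠ 2) [DecidableEq (VV U q × Bool)] :
    ((lift (base H q ⊔ cross U q) (cover H q c ⊔ cross U q)).adjMatrix ℚ).charpoly =
      ((lift (cover H q c ⊔ cross U q) (base H q ⊔ cross U q)).adjMatrix ℚ).charpoly := by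
  set e := LinearEquiv.ofInjectiveEndo (rho q) (rho_injective (U := U) q h2) with he
  have hcoe : ∀ f, e f = rho q f := fun f => rfl
  set R := LinearMap.toMatrix' (rho q : (VV U q → ℚ) →ₗ[ℚ] (VV U q → ℚ)) with hR
  set S := LinearMap.toMatrix' (e.symm : (VV U q → ℚ) →ₗ[ℚ] (VV U q → ℚ)) with hS
  have hRS : R * S = 1 := by
    rw [hR, hS, ← LinearMap.toMatrix'_mul]
    have : rho q * (e.symm : (VV U q → ℚ) →ₗ[ℚ] (VV U q → ℚ)) = 1 := by
      refine LinearMap.ext fun f => ?_
      rw [Module.End.mul_apply, LinearEquiv.coe_coe, ← hcoe, LinearEquiv.apply_symm_apply,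
        Module.End.one_apply]
    rw [this, LinearMap.toMatrix'_one]
  refine charpoly_lift _ _ R S hRS ?_
  have hneg : (cover H q c ⊔ cross U q).adjMatrix ℚ - (base H q ⊔ cross U q).adjMatrix ℚ =
      -((base H q).adjMatrix ℚ - (cover H q c).adjMatrix ℚ) := by
    rw [← diff_eq H q c, neg_sub]
  rw [hneg, diff_eq H q c]
  set A := (base H q).adjMatrix ℚ - (cover H q c).adjMatrix ℚ with hA
  have hRv : ∀ f, R *ᵥ f = rho q f := fun f => by
    rw [hR, LinearMap.toMatrix'_mulVec]
  have hAv : ∀ f, A *ᵥ f = delta H q c f := fun f => diff_mulVec H q c f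
  apply Matrix.toLin'.injective
  refine LinearMap.ext fun f => ?_
  rw [Matrix.toLin'_apply, Matrix.toLin'_apply, ← Matrix.mulVec_mulVec, ← Matrix.mulVec_mulVec,
    hAv, hRv, hRv, Matrix.neg_mulVec, hAv, rho_delta]

end ChpxL

/-- [CHPX] -/
theorem chpx : S_CHPX := fun U _ H q _ hq h2 c =>
  ⟨@ChpxL.charpoly_eq U _ H q ⟨hq⟩ c h2 fun a b => Classical.propDecidable (a = b),
    ⟨doubleIso _ _⟩⟩

end Pool.Agent.Helper78K9.LC
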