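import Pool.Agent.Helper78K9.LC.Stm2

/-! # Connected graphs: [CON] -/

set_option autoImplicit false

namespace Pool.Agent.Helper78K9.LC

open Classical

open Pool.Agent.TH912.LS (NoOdd ball SameView W)

theorem con (hsml : S_SML) : S_CON := by
  intro U _ _ H m hodd
  obtain ⟨r, ⟨e⟩⟩ := Finite.exists_equiv_fin H.ConnectedComponent
  have hr : 0 < r := by
    have h1 := e (H.connectedComponentMk (Classical.arbitrary U))
    exact h1.pos
  obtain ⟨r, rfl⟩ : ∃ s, r = s + 1 := ⟨r - 1, by omega⟩
  let rep : Fin (r + 1) → U := fun i => (e.symm i).out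
  have hrep : ∀ i, H.connectedComponentMk (rep i) = e.symm i := fun i =>
    Quot.out_eq (e.symm i)
  have hinj : Function.Injective rep := by
    intro i j hij
    have h1 := hrep i
    rw [hij, hrep j] at h1
    exact (e.symm.injective h1).symm
  let P : SimpleGraph U := (SimpleGraph.pathGraph (r + 1)).map rep
  have hP : ∀ u v, P.Adj u v ↔ ∃ i j, (SimpleGraph.pathGraph (r + 1)).Adj i j ∧ rep i = u ∧ rep j = v := by
    intro u v
    show ((SimpleGraph.pathGraph (r + 1)).map rep).Adj u v ↔ _
    rw [SimpleGraph.map_adj']
    constructor
    · exact fun h => h.2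
    · rintro ⟨i, j, hij, rfl, rfl⟩
      exact ⟨fun h => hij.ne (hinj h), i, j, hij, rfl, rfl⟩
  refine ⟨H ⊔ P, le_sup_left, ?_, ?_, ?_⟩
  · have hreach : ∀ u, (H ⊔ P).Reachable u (rep (e (H.connectedComponentMk u))) := by
      intro u
      have h1 : H.connectedComponentMk (rep (e (H.connectedComponentMk u))) =
          H.connectedComponentMk u := by
        rw [hrep, Equiv.symm_apply_apply]
      exact ((SimpleGraph.ConnectedComponent.exact h1).symm).mono le_sup_left
    have hpp : ∀ i j, (H ⊔ P).Reachable (rep i) (rep j) := by
      intro i j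
      have h1 : (SimpleGraph.pathGraph (r + 1)).Reachable i j :=
        (SimpleGraph.pathGraph_connected r).preconnected i j
      have h2 : P.Reachable (rep i) (rep j) := by
        have h3 := h1.map (SimpleGraph.Hom.map rep
          (SimpleGraph.pathGraph (r + 1)) fun h => fun h' => h.ne (hinj h'))
        exact h3
      exact h2.mono le_sup_right
    refine ⟨fun u v => ?_⟩
    exact (hreach u).trans ((hpp _ _).trans (hreach v).symm)
  · rw [hsml]
    intro A hA
    obtain ⟨χ, hχ⟩ := (hsml U H m).mp hodd A hA
    let rp : ℕ → U := fun j => if h : j < r + 1 then rep ⟨j, h⟩ else Classical.arbitrary U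
    let f : ℕ → Bool := fun n => Nat.rec false (fun j b => !(b ^^ (χ (rp j) ^^ χ (rp (j + 1))))) n
    have hf : ∀ j, f (j + 1) = !(f j ^^ (χ (rp j) ^^ χ (rp (j + 1)))) := fun j => rfl
    have hrp : ∀ i : Fin (r + 1), rp i.val = rep i := by
      intro i
      show (if h : i.val < r + 1 then rep ⟨i.val, h⟩ else Classical.arbitrary U) = rep i
      rw [dif_pos i.2]
    refine ⟨fun u => χ u ^^ f (e (H.connectedComponentMk u)).val, ?_⟩
    have hstep : ∀ i j : Fin (r + 1), i.val + 1 = j.val →
        (χ (rep i) ^^ f (e (H.connectedComponentMk (rep i))).val) ≠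
          (χ (rep j) ^^ f (e (H.connectedComponentMk (rep j))).val) := by
      intro i j hij
      rw [hrep, hrep, Equiv.apply_symm_apply, Equiv.apply_symm_apply, ← hij, hf]
      have h1 : rp (i.val + 1) = rep j := by rw [hij]; exact hrp j
      rw [h1, hrp]
      generalize χ (rep i) = a
      generalize χ (rep j) = b
      generalize f i.val = c
      cases a <;> cases b <;> cases c <;> simp
    intro u hu v hv huv
    rcases huv with huv | huv
    · have h1 : H.connectedComponentMk u = H.connectedComponentMk v :=
        SimpleGraph.ConnectedComponent.sound huv.reachable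
      have h2 := hχ u hu v hv huv
      simp only [h1]
      intro h3
      apply h2
      generalize f (e (H.connectedComponentMk v)).val = c at h3
      revert h3
      cases χ u <;> cases χ v <;> cases c <;> simp
    · obtain ⟨i, j, hij, rfl, rfl⟩ := (hP u v).mp huv
      rw [SimpleGraph.pathGraph_adj] at hij
      rcases hij with hij | hij
      · exact hstep i j hij
      · exact (hstep j i hij).symm
  · intro u
    have h1 : (H ⊔ P).neighborSet u ⊆ H.neighborSet u ∪ P.neighborSet u := by
      intro v hv
      exact hv
    have h2 : (P.neighborSet u).ncard ≤ 2 := by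
      by_cases hu : ∃ i, rep i = u
      · obtain ⟨i, rfl⟩ := hu
        have h3 : P.neighborSet (rep i) ⊆
            {(if h : i.val + 1 < r + 1 then rep ⟨i.val + 1, h⟩ else rep i),
              rep ⟨i.val - 1, by omega⟩} := by
          intro v hv
          obtain ⟨a, b, hab, ha, rfl⟩ := (hP _ v).mp hv
          have h4 : a = i := hinj ha
          subst h4
          rw [SimpleGraph.pathGraph_adj] at hab
          rcases hab with hab | hab
          · left
            have h5 : a.val + 1 < r + 1 := by have := b.2; omega
            rw [dif_pos h5]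
            congr 1
            exact Fin.ext hab.symm
          · right
            show rep b = rep ⟨a.val - 1, _⟩
            congr 1
            apply Fin.ext
            show b.val = a.val - 1
            omega
        calc (P.neighborSet (rep i)).ncard ≤ _ := Set.ncard_le_ncard h3 (Set.toFinite _)
          _ ≤ 2 := Set.ncard_insert_le _ _ |>.trans (by rw [Set.ncard_singleton])
      · have h3 : P.neighborSet u = ∅ := by
          rw [Set.eq_empty_iff_forall_notMem]
          intro v hv
          obtain ⟨a, b, hab, ha, rfl⟩ := (hP _ v).mp hv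
          exact hu ⟨a, ha⟩
        rw [h3, Set.ncard_empty]
        omega
    calc ((H ⊔ P).neighborSet u).ncard ≤ (H.neighborSet u ∪ P.neighborSet u).ncard :=
          Set.ncard_le_ncard h1 (Set.toFinite _)
      _ ≤ (H.neighborSet u).ncard + (P.neighborSet u).ncard := Set.ncard_union_le _ _
      _ ≤ (H.neighborSet u).ncard + 2 := by omega

end Pool.Agent.Helper78K9.LC
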