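import Pool.Agent.Helper62K9.SD.Final
import Pool.Agent.TH912.LS.Defs

/-!
# The data of a graph which are used
-/

set_option autoImplicit false

namespace Pool.Agent.Helper78K9.LC

open Pool.Agent.Helper62K9.SD (Alike)
open Pool.Agent.TH912.LS (SameView)

/-- **The graphs `G` and `H` agree up to the radius `m`**:

* they have the same characteristic polynomial of the adjacency matrix and isomorphic bipartite double
  covers (`Alike`);
* for every finite graph `X`, of any size, that is bipartite or has a closed walk of odd length at most
  `m`, they have the same number of homomorphisms from `X`;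
* for every finite graph `X` with at most `m` vertices they have the same number of induced copies of
  `X` (embeddings, that is injective maps which preserve adjacency and non-adjacency);
* every vertex has isomorphic views of the radius `r` in `G` and in `H` for `r ≤ m` (the ball of the
  radius `r` as a rooted graph). -/
structure SameData (m : ℝ) {V : Type} [Fintype V] (G H : SimpleGraph V) : Prop where
  alike : Alike G H
  hom : ∀ (W : Type) [Finite W] (X : SimpleGraph W),
    (X.IsBipartite ∨ ∃ (w : W) (p : X.Walk w w), Odd p.length ∧ (p.length : ℝ) ≤ m) →
    Nat.card (X →g G) = Nat.card (X →g H)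
  emb : ∀ (W : Type) [Finite W] (X : SimpleGraph W), (Nat.card W : ℝ) ≤ m →
    Nat.card (X ↪g G) = Nat.card (X ↪g H)
  view : ∀ r : ℕ, (r : ℝ) ≤ m → ∀ v : V, SameView r G (fun _ => ()) v H (fun _ => ()) v

end Pool.Agent.Helper78K9.LC
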