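import Pool.Agent.Helper78K9.LC.Stm

/-!
# Many edges in a set without large independent subsets
-/

set_option autoImplicit false

namespace Pool.Agent.Helper78K9.LC

/-- [EDG] -/
theorem edg : S_EDG := by
  classical
  intro U _ H A C s hI hA
  by_contra hlt
  push Not at hlt
  set dg : U → ℕ := fun a => (A.filter (fun b => H.Adj a b)).card with hdg
  have hcount : {p : U × U | p.1 ∈ A ∧ p.2 ∈ A ∧ H.Adj p.1 p.2}.ncard = ∑ a ∈ A, dg a := by
    have h1 : {p : U × U | p.1 ∈ A ∧ p.2 ∈ A ∧ H.Adj p.1 p.2} =
        ((A ×ˢ A).filter (fun p => H.Adj p.1 p.2) : Finset (U × U)) := by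
      ext p
      simp [and_assoc]
    rw [h1, Set.ncard_coe_finset, Finset.card_filter, Finset.sum_product]
    refine Finset.sum_congr rfl fun a _ => ?_
    rw [hdg]
    simp only
    rw [Finset.card_filter]
  rw [hcount] at hlt
  set B := A.filter (fun a => dg a ≤ 2 * C) with hB
  set B' := A.filter (fun a => ¬ dg a ≤ 2 * C) with hB'
  have hBB : B.card + B'.card = A.card := Finset.card_filter_add_card_filter_not _
  have hB1 : (2 * C + 1) * B'.card ≤ ∑ a ∈ A, dg a := by
    calc (2 * C + 1) * B'.card = ∑ _a ∈ B', (2 * C + 1) := by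
          rw [Finset.sum_const, smul_eq_mul, mul_comm]
      _ ≤ ∑ a ∈ B', dg a := by
          refine Finset.sum_le_sum fun a ha => ?_
          have := (Finset.mem_filter.1 ha).2
          omega
      _ ≤ ∑ a ∈ A, dg a :=
          Finset.sum_le_sum_of_subset (Finset.filter_subset _ _)
  have hB2 : A.card < 2 * B.card := by
    by_contra hcon
    push Not at hcon
    have h1 : A.card ≤ 2 * B'.card := by omega
    have h2 : (2 * C + 1) * B'.card < C * A.card := lt_of_le_of_lt hB1 hlt
    have h3 : C * A.card ≤ C * (2 * B'.card) := Nat.mul_le_mul_left _ h1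
    nlinarith
  obtain ⟨I, hIm, hImax⟩ := Finset.exists_max_image
    (B.powerset.filter (fun I : Finset U => H.IsIndepSet (I : Set U))) Finset.card ⟨∅, by simp⟩
  rw [Finset.mem_filter, Finset.mem_powerset] at hIm
  obtain ⟨hIB, hIi⟩ := hIm
  have hcov : B ⊆ I.biUnion (fun i => insert i (A.filter (fun b => H.Adj i b))) := by
    intro b hb
    rw [Finset.mem_biUnion]
    by_contra hcon
    push Not at hcon
    have hbI : b ∉ I := fun h => hcon b h (Finset.mem_insert_self _ _)
    have hbadj : ∀ i ∈ I, ¬ H.Adj i b := fun i hi h =>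
      hcon i hi (Finset.mem_insert_of_mem (Finset.mem_filter.2 ⟨(Finset.mem_filter.1 hb).1, h⟩))
    have h1 : insert b I ∈ B.powerset.filter (fun I : Finset U => H.IsIndepSet (I : Set U)) := by
      rw [Finset.mem_filter, Finset.mem_powerset]
      refine ⟨Finset.insert_subset hb hIB, ?_⟩
      intro x hx y hy hxy
      rw [Finset.coe_insert, Set.mem_insert_iff] at hx hy
      rcases hx with rfl | hx <;> rcases hy with rfl | hy
      · exact absurd rfl hxy
      · exact fun h => hbadj y hy h.symm
      · exact hbadj x hx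
      · exact hIi hx hy hxy
    have h2 := hImax _ h1
    rw [Finset.card_insert_of_notMem hbI] at h2
    omega
  have h1 : B.card ≤ (2 * C + 1) * I.card := by
    refine (Finset.card_le_card hcov).trans (Finset.card_biUnion_le.trans ?_)
    calc ∑ i ∈ I, (insert i (A.filter (fun b => H.Adj i b))).card
        ≤ ∑ _i ∈ I, (2 * C + 1) := by
          refine Finset.sum_le_sum fun i hi => (Finset.card_insert_le _ _).trans ?_
          have h5 : dg i ≤ 2 * C := (Finset.mem_filter.1 (hIB hi)).2
          have h6 : (A.filter (fun b => H.Adj i b)).card = dg i := rfl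
          omega
      _ = (2 * C + 1) * I.card := by
          rw [Finset.sum_const, smul_eq_mul, mul_comm]
  have h2 : I.card ≤ s := by
    have := hI (I : Set U) hIi
    rwa [Set.ncard_coe_finset] at this
  have h3 : (2 * C + 1) * I.card ≤ (2 * C + 1) * s := Nat.mul_le_mul_left _ h2
  nlinarith

end Pool.Agent.Helper78K9.LC
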