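import Pool.Agent.Helper78K9.LC.Stm2

/-!
# The lifts are connected
-/

set_option autoImplicit false

namespace Pool.Agent.Helper78K9.LC

open Pool.Agent.Helper62K9.SD (lift lift_adj)

namespace LcnL

theorem connected_of {U : Type} {q : ℕ} (H : SimpleGraph U) (hH : H.Connected)
    (G : SimpleGraph (VV U q × Bool))
    (h1 : ∀ u x b c, G.Adj (Sum.inl (u, x), b) (Sum.inr u, c))
    (h2 : ∀ u v, H.Adj u v → ∀ b, ∃ c, G.Adj (Sum.inr u, b) (Sum.inr v, c)) : G.Connected := by
  obtain ⟨u₀⟩ := hH.nonempty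
  have hsame : ∀ u b c, G.Reachable (Sum.inr u, b) (Sum.inr u, c) := fun u b c =>
    ((h1 u 0 true b).symm.reachable).trans (h1 u 0 true c).reachable
  have hwalk : ∀ (u v : U) (w : H.Walk u v) (b : Bool),
      G.Reachable (Sum.inr u, b) (Sum.inr v, true) := by
    intro u v w
    induction w with
    | nil => intro b; exact hsame _ _ _
    | cons h _ ih =>
      intro b
      obtain ⟨c, hc⟩ := h2 _ _ h b
      exact hc.reachable.trans (ih c)
  have hroot : ∀ u b, G.Reachable (Sum.inr u, b) (Sum.inr u₀, true) := fun u b => by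
    obtain ⟨w⟩ := hH.preconnected u u₀
    exact hwalk u u₀ w b
  have hall : ∀ u, G.Reachable u (Sum.inr u₀, true) := by
    rintro ⟨⟨u, x⟩ | u, b⟩
    · exact (h1 u x b true).reachable.trans (hroot _ _)
    · exact hroot _ _
  have : Nonempty (VV U q × Bool) := ⟨(Sum.inr u₀, true)⟩
  exact ⟨fun u v => (hall u).trans (hall v).symm⟩

end LcnL

theorem lcn : S_LCN := by
  intro U H q c hH
  have hc : ∀ u (x : ZMod q), (cross U q).Adj (Sum.inl (u, x)) (Sum.inr u) := fun u x => rfl
  have hb : ∀ u v, H.Adj u v → (base H q).Adj (Sum.inr u) (Sum.inr v) := fun u v h => h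
  refine ⟨LcnL.connected_of H hH _ ?_ ?_, LcnL.connected_of H hH _ ?_ ?_⟩
  · intro u x b d
    rw [lift_adj]
    simp only [SimpleGraph.sup_adj, hc, or_true, true_and]
    exact eq_or_ne b d
  · intro u v h b
    refine ⟨b, ?_⟩
    rw [lift_adj]
    exact Or.inl ⟨Or.inl (hb u v h), rfl⟩
  · intro u x b d
    rw [lift_adj]
    simp only [SimpleGraph.sup_adj, hc, or_true, true_and]
    exact eq_or_ne b d
  · intro u v h b
    refine ⟨!b, ?_⟩
    rw [lift_adj]
    exact Or.inr ⟨Or.inl (hb u v h), by simp⟩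

end Pool.Agent.Helper78K9.LC
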