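import Pool.Agent.Helper78K9.LC.Stm

/-! # [LOC]: numbers of homomorphisms and of induced copies -/

set_option autoImplicit false

namespace Pool.Agent.Helper78K9.LC

open Pool.Agent.Helper62K9.SD (lift Alike lift_adj)
open Pool.Agent.TH912.LS (NoOdd ball SameView W)

namespace LocL

/-- a closed walk of odd length contains an odd cycle which is not longer -/
theorem odd_cycle {V : Type} (G : SimpleGraph V) : ∀ (ℓ : ℕ) (f : ℕ → V), ℓ % 2 = 1 →
    (∀ i < ℓ, G.Adj (f i) (f (i + 1))) → f ℓ = f 0 → ∃ (l : ℕ) (h : ℕ → V), l % 2 = 1 ∧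
      (∀ i < l, ∀ j < l, h i = h j → i = j) ∧ (∀ i < l, G.Adj (h i) (h (i + 1))) ∧ h l = h 0 := by
  intro ℓ
  induction ℓ using Nat.strong_induction_on with
  | _ ℓ ih =>
    intro f hodd hadj hclose
    by_cases hinj : ∀ i < ℓ, ∀ j < ℓ, f i = f j → i = j
    · exact ⟨ℓ, f, hodd, hinj, hadj, hclose⟩
    · push Not at hinj
      obtain ⟨i, hi, j, hj, hij, hne⟩ := hinj
      wlog hlt : i < j generalizing i j with H
      · exact H j hj i hi hij.symm hne.symm (by omega)
      obtain ⟨m, rfl⟩ : ∃ m, j = i + m := ⟨j - i, by omega⟩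
      by_cases hm : m % 2 = 1
      · exact ih m (by omega) (fun x => f (i + x)) hm
          (fun x hx => hadj (i + x) (by omega)) (by simpa using hij.symm)
      · exact ih (ℓ - m) (by omega)
          (fun x => if x ≤ i then f x else f (x + m)) (by omega) (by
            intro x hx
            by_cases h1 : x + 1 ≤ i
            · rw [if_pos (by omega), if_pos h1]
              exact hadj x (by omega)
            · by_cases h2 : x ≤ i
              · have h3 : x = i := by omega
                subst h3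
                rw [if_pos le_rfl, if_neg (by omega), hij]
                have := hadj (x + m) (by omega)
                rwa [show x + m + 1 = x + 1 + m by ring] at this
              · rw [if_neg h2, if_neg h1]
                have := hadj (x + m) (by omega)
                rwa [show x + m + 1 = x + 1 + m by ring] at this) (by
            show (if ℓ - m ≤ i then f (ℓ - m) else f (ℓ - m + m)) = if 0 ≤ i then f 0 else f (0 + m)
            rw [if_neg (by omega), if_pos (Nat.zero_le _), Nat.sub_add_cancel (by omega), hclose])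

theorem walk_of_fun {V : Type} (G : SimpleGraph V) (h : ℕ → V) : ∀ n : ℕ,
    (∀ i < n, G.Adj (h i) (h (i + 1))) → ∃ w : G.Walk (h 0) (h n), w.length = n := by
  intro n
  induction n with
  | zero => intro _; exact ⟨SimpleGraph.Walk.nil, rfl⟩
  | succ n ih =>
    intro ha
    obtain ⟨w, hw⟩ := ih fun i hi => ha i (by omega)
    exact ⟨w.concat (ha n (by omega)), by rw [SimpleGraph.Walk.length_concat, hw]⟩

/-- sets of at most `m` vertices are bipartite -/
theorem exists_col {V : Type} [Finite V] (G : SimpleGraph V) (m : ℕ) (hG : NoOdd G m) (A : Set V)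
    (hA : A.ncard ≤ m) : ∃ χ : V → Bool, ∀ u ∈ A, ∀ v ∈ A, G.Adj u v → χ u ≠ χ v := by
  classical
  have h2 : (G.induce A).Colorable 2 := by
    rw [SimpleGraph.two_colorable_iff_forall_loop_even]
    intro u w
    by_contra hodd
    rw [Nat.not_even_iff] at hodd
    obtain ⟨l, h, hl, hinj, hadj, hclose⟩ := odd_cycle (G.induce A) w.length (fun i => w.getVert i)
      hodd (fun i hi => w.adj_getVert_succ hi) (by simp)
    have hle : l ≤ A.ncard := by
      have h3 : Function.Injective (fun i : Fin l => h i) := fun i j hij =>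
        Fin.ext (hinj i i.2 j j.2 hij)
      have h4 := Nat.card_le_card_of_injective _ h3
      simpa [Set.ncard] using h4
    obtain ⟨w', hw'⟩ := walk_of_fun G (fun i => ((h i : A) : V)) l
      (fun i hi => by simpa using hadj i hi)
    have he : ((h l : A) : V) = (h 0 : A) := by rw [hclose]
    apply hG (h 0 : A)
    refine ⟨w'.copy rfl he, ?_, ?_⟩
    · rw [SimpleGraph.Walk.length_copy]; omega
    · rw [SimpleGraph.Walk.length_copy, hw']
      rw [Nat.mod_two_of_bodd] at hl
      revert hl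
      cases l.bodd <;> simp
  obtain ⟨c⟩ := h2
  refine ⟨fun v => if hv : v ∈ A then decide (c ⟨v, hv⟩ = 0) else false, fun u hu v hv huv => ?_⟩
  have h5 : c ⟨u, hu⟩ ≠ c ⟨v, hv⟩ := c.valid (by simpa using huv)
  simp only [hu, hv, dif_pos]
  intro h6
  apply h5
  rw [decide_eq_decide] at h6
  by_cases h7 : c ⟨u, hu⟩ = 0
  · rw [h7, h6.1 h7]
  · have h8 : ¬ c ⟨v, hv⟩ = 0 := fun h => h7 (h6.2 h)
    have h9 : ∀ x : Fin 2, x ≠ 0 → x = 1 := by decide
    rw [h9 _ h7, h9 _ h8]

variable {V W : Type} {X : SimpleGraph W}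

/-- twist a homomorphism by a 2-colouring of `X` -/
def tw (K F : SimpleGraph V) (κ : W → Bool) (hκ : ∀ w w', X.Adj w w' → κ w ≠ κ w')
    (φ : X →g lift K F) : X →g lift F K where
  toFun w := ((φ w).1, (φ w).2 ^^ κ w)
  map_rel' := by
    intro w w' h
    have h1 := φ.map_adj h
    have h2 := hκ w w' h
    rw [lift_adj] at h1 ⊢
    simp only
    revert h1 h2
    cases (φ w).2 <;> cases (φ w').2 <;> cases κ w <;> cases κ w' <;> simp

theorem card_hom (K F : SimpleGraph V) (κ : W → Bool) (hκ : ∀ w w', X.Adj w w' → κ w ≠ κ w') :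
    Nat.card (X →g lift K F) = Nat.card (X →g lift F K) := by
  refine Nat.card_congr ⟨tw K F κ hκ, tw F K κ hκ, fun φ => ?_, fun φ => ?_⟩
  · ext w
    · rfl
    · show (((φ w).2 ^^ κ w) ^^ κ w) = (φ w).2
      simp
  · ext w
    · rfl
    · show (((φ w).2 ^^ κ w) ^^ κ w) = (φ w).2
      simp

/-- twist an embedding by a 2-colouring of its projection -/
def twE (K F : SimpleGraph V) [Finite W] (m : ℕ) (χ : Set V → V → Bool)
    (hχ : ∀ A : Set V, A.ncard ≤ m → ∀ u ∈ A, ∀ v ∈ A, K.Adj u v ∨ F.Adj u v → χ A u ≠ χ A v)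
    (hW : Nat.card W ≤ m) (φ : X ↪g lift K F) : X ↪g lift F K where
  toFun w := ((φ w).1, (φ w).2 ^^ χ (Set.range (fun w => (φ w).1)) (φ w).1)
  inj' := by
    intro w w' h
    simp only [Prod.mk.injEq] at h
    obtain ⟨h1, h2⟩ := h
    rw [h1] at h2
    apply φ.injective
    apply Prod.ext h1
    revert h2
    cases (φ w).2 <;> cases (φ w').2 <;> simp
  map_rel_iff' := by
    intro w w'
    have hA : (Set.range (fun w => (φ w).1)).ncard ≤ m := by
      refine le_trans ?_ hW
      rw [← Set.image_univ, ← Set.ncard_univ]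
      exact Set.ncard_image_le Set.finite_univ
    have h1 := hχ _ hA _ (Set.mem_range_self w) _ (Set.mem_range_self w')
    have h2 : X.Adj w w' ↔ (lift K F).Adj (φ w) (φ w') := φ.map_adj_iff.symm
    show (lift F K).Adj ((φ w).1, (φ w).2 ^^ χ (Set.range (fun w => (φ w).1)) (φ w).1)
      ((φ w').1, (φ w').2 ^^ χ (Set.range (fun w => (φ w).1)) (φ w').1) ↔ _
    rw [h2, lift_adj, lift_adj]
    dsimp only at h1 ⊢
    generalize χ (Set.range (fun w => (φ w).1)) (φ w).1 = a at h1 ⊢
    generalize χ (Set.range (fun w => (φ w).1)) (φ w').1 = b at h1 ⊢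
    revert h1
    cases (φ w).2 <;> cases (φ w').2 <;> cases a <;> cases b <;> simp <;> tauto

theorem card_emb (K F : SimpleGraph V) [Finite W] (m : ℕ) (χ : Set V → V → Bool)
    (hχ : ∀ A : Set V, A.ncard ≤ m → ∀ u ∈ A, ∀ v ∈ A, K.Adj u v ∨ F.Adj u v → χ A u ≠ χ A v)
    (hW : Nat.card W ≤ m) : Nat.card (X ↪g lift K F) = Nat.card (X ↪g lift F K) := by
  have hχ' : ∀ A : Set V, A.ncard ≤ m → ∀ u ∈ A, ∀ v ∈ A, F.Adj u v ∨ K.Adj u v →
      χ A u ≠ χ A v := fun A hA u hu v hv h => hχ A hA u hu v hv h.symm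
  have key : ∀ (K F : SimpleGraph V)
      (h : ∀ A : Set V, A.ncard ≤ m → ∀ u ∈ A, ∀ v ∈ A, K.Adj u v ∨ F.Adj u v → χ A u ≠ χ A v)
      (h' : ∀ A : Set V, A.ncard ≤ m → ∀ u ∈ A, ∀ v ∈ A, F.Adj u v ∨ K.Adj u v → χ A u ≠ χ A v)
      (φ : X ↪g lift K F), twE F K m χ h' hW (twE K F m χ h hW φ) = φ := by
    intro K F h h' φ
    apply RelEmbedding.ext
    intro w
    apply Prod.ext
    · rfl
    · show (((φ w).2 ^^ χ (Set.range (fun w => (φ w).1)) (φ w).1) ^^
        χ (Set.range (fun w => (φ w).1)) (φ w).1) = (φ w).2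
      simp
  exact Nat.card_congr ⟨twE K F m χ hχ hW, twE F K m χ hχ' hW, key K F hχ hχ', key F K hχ' hχ⟩

/-- no homomorphisms from graphs with a short closed walk of odd length -/
theorem no_hom (K F : SimpleGraph V) (m : ℕ) (hno : NoOdd (K ⊔ F) m) (w : W) (p : X.Walk w w)
    (hp : Odd p.length) (hpm : p.length ≤ m) (φ : X →g lift K F) : False := by
  let ψ : X →g (K ⊔ F) := ⟨fun w => (φ w).1, by
    intro a b h
    have h1 := φ.map_adj h
    rw [lift_adj] at h1
    rw [SimpleGraph.sup_adj]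
    rcases h1 with h1 | h1
    · exact Or.inl h1.1
    · exact Or.inr h1.1⟩
  apply hno (ψ w)
  refine ⟨p.map ψ, ?_, ?_⟩
  · rw [SimpleGraph.Walk.length_map]; exact hpm
  · rw [SimpleGraph.Walk.length_map]
    rw [Nat.odd_iff, Nat.mod_two_of_bodd] at hp
    revert hp
    cases p.length.bodd <;> simp

end LocL

open LocL

theorem loc : S_LOC := by
  classical
  intro V _ K F m hno
  refine ⟨fun W _ X h => ?_, fun W _ X hW => ?_⟩
  · rcases h with h | ⟨w, p, hp, hpm⟩
    · obtain ⟨c⟩ : X.Colorable 2 := h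
      refine card_hom K F (fun w => decide (c w = 0)) fun w w' hww => ?_
      have h5 : c w ≠ c w' := c.valid hww
      intro h6
      apply h5
      rw [decide_eq_decide] at h6
      by_cases h7 : c w = 0
      · rw [h7, h6.1 h7]
      · have h8 : ¬ c w' = 0 := fun h => h7 (h6.2 h)
        have h9 : ∀ x : Fin 2, x ≠ 0 → x = 1 := by decide
        rw [h9 _ h7, h9 _ h8]
    · have h1 : IsEmpty (X →g lift K F) := ⟨fun φ => no_hom K F m hno w p hp hpm φ⟩
      have h2 : IsEmpty (X →g lift F K) := ⟨fun φ => no_hom F K m (by rwa [sup_comm]) w p hp hpm φ⟩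
      rw [Nat.card_of_isEmpty, Nat.card_of_isEmpty]
  · have h := fun A : Set V => fun hA : A.ncard ≤ m => exists_col (K ⊔ F) m hno A hA
    have h' : ∀ A : Set V, ∃ χ : V → Bool, A.ncard ≤ m → ∀ u ∈ A, ∀ v ∈ A,
        K.Adj u v ∨ F.Adj u v → χ u ≠ χ v := by
      intro A
      by_cases hA : A.ncard ≤ m
      · obtain ⟨χ, hχ⟩ := h A hA
        exact ⟨χ, fun _ u hu v hv huv => hχ u hu v hv (by rwa [SimpleGraph.sup_adj])⟩
      · exact ⟨fun _ => false, fun h => absurd h hA⟩
    choose χ hχ using h'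
    exact card_emb K F m χ hχ hW

end Pool.Agent.Helper78K9.LC
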