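import Pool.Agent.Helper78K9.LC.Stm2

/-!
# No short odd closed walks in the reflection cover with the cross edges
-/

set_option autoImplicit false

namespace Pool.Agent.Helper78K9.LC

open Pool.Agent.TH912.LS (NoOdd)

/-- the projection to `U` -/
def projX {U : Type} (q : ℕ) : VV U q → U
  | .inl (u, _) => u
  | .inr u => u

/-- the side -/
def side {U : Type} (q : ℕ) : VV U q → Bool
  | .inl _ => false
  | .inr _ => true

theorem adjX {U : Type} (H : SimpleGraph U) (q : ℕ) (c : Sym2 U → ZMod q) {x y : VV U q}
    (h : ((base H q ⊔ cross U q) ⊔ (cover H q c ⊔ cross U q)).Adj x y) :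
    (H.Adj (projX q x) (projX q y) ∧ side q x = side q y) ∨
      (projX q x = projX q y ∧ side q x ≠ side q y) := by
  simp only [SimpleGraph.sup_adj] at h
  obtain ⟨u, a⟩ | u := x <;> obtain ⟨v, b⟩ | v := y
  · rcases h with (h | h) | (h | h)
    · exact absurd h (by simp [base])
    · exact absurd h (by simp [cross])
    · exact Or.inl ⟨h.1, rfl⟩
    · exact absurd h (by simp [cross])
  · rcases h with (h | h) | (h | h)
    · exact absurd h (by simp [base])
    · exact Or.inr ⟨h, by simp [side]⟩
    · exact absurd h (by simp [cover])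
    · exact Or.inr ⟨h, by simp [side]⟩
  · rcases h with (h | h) | (h | h)
    · exact absurd h (by simp [base])
    · exact Or.inr ⟨h, by simp [side]⟩
    · exact absurd h (by simp [cover])
    · exact Or.inr ⟨h, by simp [side]⟩
  · rcases h with (h | h) | (h | h)
    · exact Or.inl ⟨h, rfl⟩
    · exact absurd h (by simp [cross])
    · exact absurd h (by simp [cover])
    · exact absurd h (by simp [cross])

theorem nox (hsml : S_SML) : S_NOX := by
  classical
  intro U H q c m hH
  rw [hsml]
  intro A hA
  obtain ⟨χ, hχ⟩ := (hsml U H m).1 hH (A.image (projX q)) (Finset.card_image_le.trans hA)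
  refine ⟨fun x => χ (projX q x) ^^ side q x, fun x hx y hy hxy => ?_⟩
  show (χ (projX q x) ^^ side q x) ≠ (χ (projX q y) ^^ side q y)
  rcases adjX H q c hxy with ⟨h1, h2⟩ | ⟨h1, h2⟩
  · have h3 := hχ _ (Finset.mem_image_of_mem _ hx) _ (Finset.mem_image_of_mem _ hy) h1
    rw [h2]
    revert h3
    cases χ (projX q x) <;> cases χ (projX q y) <;> cases side q y <;> simp
  · rw [h1]
    revert h2
    cases χ (projX q y) <;> cases side q x <;> cases side q y <;> simp

end Pool.Agent.Helper78K9.LC
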