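import Pool.Agent.Helper78K9.LC.Stm2
import Pool.Agent.Helper78K9.LC.Loc

/-!
# Short odd closed walks and small sets of vertices
-/

set_option autoImplicit false

namespace Pool.Agent.Helper78K9.LC

open Pool.Agent.TH912.LS (NoOdd W)

namespace SmlL

theorem walk_parity {V : Type} {G : SimpleGraph V} {A : Finset V} {χ : V → Bool}
    (hχ : ∀ u ∈ A, ∀ v ∈ A, G.Adj u v → χ u ≠ χ v) {u v : V} (w : G.Walk u v) :
    (∀ x ∈ w.support, x ∈ A) → (χ u ^^ χ v) = w.length.bodd := by
  induction w with
  | nil => intro _; simp
  | @cons a b d h w ih =>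
    intro hA
    have h1 : ∀ x ∈ w.support, x ∈ A := fun x hx => hA x (by
      rw [SimpleGraph.Walk.support_cons]
      exact List.mem_cons_of_mem _ hx)
    have h2 := ih h1
    have h3 : χ a ≠ χ b := hχ a (hA a (by simp)) b (h1 b (by simp)) h
    rw [SimpleGraph.Walk.length_cons, Nat.bodd_succ, ← h2]
    revert h3
    cases χ a <;> cases χ b <;> cases χ d <;> simp

end SmlL

theorem sml : S_SML := by
  classical
  intro V G m
  constructor
  · intro hG A hA
    have hG' : NoOdd (G.induce (A : Set V)) m := by
      rintro x ⟨w, hw, hp⟩
      let f : G.induce (A : Set V) →g G := ⟨fun x => x.1, fun h => h⟩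
      refine hG x.1 ⟨w.map f, ?_, ?_⟩
      · rw [SimpleGraph.Walk.length_map]
        exact hw
      · rw [SimpleGraph.Walk.length_map]
        exact hp
    obtain ⟨χ, hχ⟩ := LocL.exists_col (G.induce (A : Set V)) m hG' Set.univ (by
      rw [Set.ncard_univ]
      exact (by simp : Nat.card ((A : Set V) : Type) = A.card).le.trans hA)
    refine ⟨fun v => if hv : v ∈ A then χ ⟨v, hv⟩ else false, fun u hu v hv huv => ?_⟩
    simp only [hu, hv, dif_pos]
    exact hχ ⟨u, hu⟩ (Set.mem_univ _) ⟨v, hv⟩ (Set.mem_univ _) huv
  · rintro h u ⟨w, hw, hp⟩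
    have hlen : 0 < w.length := by
      rcases Nat.eq_zero_or_pos w.length with h0 | h0
      · rw [h0] at hp
        simp at hp
      · exact h0
    have hcard : w.support.toFinset.card ≤ m := by
      have h1 : w.support.toFinset = w.support.tail.toFinset := by
        ext x
        rw [List.mem_toFinset, List.mem_toFinset]
        constructor
        · intro hx
          rw [SimpleGraph.Walk.mem_support_iff] at hx
          rcases hx with rfl | hx
          · exact SimpleGraph.Walk.end_mem_tail_support (by
              intro hn
              have := SimpleGraph.Walk.length_eq_zero_iff.2 hn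
              omega)
          · exact hx
        · exact List.mem_of_mem_tail
      rw [h1]
      refine (List.toFinset_card_le _).trans ?_
      rw [List.length_tail, SimpleGraph.Walk.length_support]
      omega
    obtain ⟨χ, hχ⟩ := h _ hcard
    have h2 := SmlL.walk_parity hχ w (fun x hx => List.mem_toFinset.2 hx)
    rw [hp] at h2
    simp at h2

end Pool.Agent.Helper78K9.LC
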