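import Pool.Agent.Helper78K9.LC.Stm

/-!
# The union bound
-/

set_option autoImplicit false

namespace Pool.Agent.Helper78K9.LC

open Finset

theorem uni : S_UNI := by
  classical
  intro q C _ hlt U _ _ H
  by_contra hcon
  push Not at hcon
  let E : (U → Option (ZMod q)) → Finset (Sym2 U) := fun y =>
    univ.filter fun e => ∃ u v a b, e = s(u, v) ∧ H.Adj u v ∧ y u = some a ∧ y v = some b
  let S : (U → Option (ZMod q)) → Sym2 U → Finset (ZMod q) := fun y e =>
    univ.filter fun z => ∀ u v a b, e = s(u, v) → H.Adj u v → y u = some a → y v = some b →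
      z ≠ a + b
  have hq0 : (0 : ℝ) < q := by exact_mod_cast Nat.pos_of_ne_zero (NeZero.ne q)
  have hq1 : (1 : ℝ) ≤ q := by exact_mod_cast Nat.pos_of_ne_zero (NeZero.ne q)
  have hr0 : (0 : ℝ) ≤ 1 - 1 / q := by
    rw [sub_nonneg, div_le_one hq0]
    exact hq1
  have hr1 : (1 : ℝ) - 1 / q ≤ 1 := by
    have : (0 : ℝ) ≤ 1 / q := by positivity
    linarith
  have hS1 : ∀ y e, e ∈ E y → ((S y e).card : ℝ) ≤ q * (1 - 1 / q) := by
    intro y e he
    obtain ⟨u, v, a, b, rfl, h1, h2, h3⟩ := (mem_filter.1 he).2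
    have h4 : S y s(u, v) ⊆ univ.erase (a + b) := by
      intro z hz
      exact mem_erase.2 ⟨(mem_filter.1 hz).2 u v a b rfl h1 h2 h3, mem_univ _⟩
    have h5 := card_le_card h4
    rw [card_erase_of_mem (mem_univ _), card_univ, ZMod.card] at h5
    have h6 : q * (1 - 1 / (q : ℝ)) = ((q - 1 : ℕ) : ℝ) := by
      rw [Nat.cast_sub (Nat.pos_of_ne_zero (NeZero.ne q))]
      field_simp
      push_cast
      ring
    rw [h6]
    exact_mod_cast h5
  have hS2 : ∀ y e, ((S y e).card : ℝ) ≤ q := by
    intro y e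
    exact_mod_cast (card_le_univ (S y e)).trans_eq (ZMod.card q)
  set N := Fintype.card (Sym2 U) with hN
  have hbad : ∀ y, C * Fintype.card U ≤ (E y).card →
      ((Fintype.piFinset (S y)).card : ℝ) ≤ q ^ N * (1 - 1 / q) ^ (C * Fintype.card U) := by
    intro y hy
    rw [Fintype.card_piFinset]
    push_cast
    have h1 : ∏ e, ((S y e).card : ℝ) ≤
        ∏ e : Sym2 U, ((q : ℝ) * if e ∈ E y then (1 - 1 / (q : ℝ)) else 1) := by
      refine prod_le_prod (fun e _ => Nat.cast_nonneg _) fun e _ => ?_
      split_ifs with h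
      · exact hS1 y e h
      · rw [mul_one]
        exact hS2 y e
    refine h1.trans ?_
    rw [prod_mul_distrib, prod_const, card_univ, prod_ite, prod_const, prod_const_one, mul_one]
    have h2 : (univ.filter fun e => e ∈ E y) = E y := by
      ext e
      simp
    rw [h2]
    exact mul_le_mul_of_nonneg_left (pow_le_pow_of_le_one hr0 hr1 hy) (by positivity)
  have hcov : (univ : Finset (Sym2 U → ZMod q)) ⊆
      (univ.filter fun y : U → Option (ZMod q) => C * Fintype.card U ≤ (E y).card).biUnion
        fun y => Fintype.piFinset (S y) := by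
    intro c _
    obtain ⟨I, hI, hn⟩ := hcon c
    let y : U → Option (ZMod q) := fun u => if h : ∃ x, (u, x) ∈ I then some h.choose else none
    have hy : ∀ u a, y u = some a → (u, a) ∈ I := by
      intro u a h
      simp only [y] at h
      split_ifs at h with h'
      rw [← Option.some.inj h]
      exact h'.choose_spec
    have hy2 : ∀ u, (∃ x, (u, x) ∈ I) → ∃ a, y u = some a := by
      intro u h
      refine ⟨h.choose, ?_⟩
      simp only [y]
      rw [dif_pos h]
    refine mem_biUnion.2 ⟨y, mem_filter.2 ⟨mem_univ _, ?_⟩, ?_⟩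
    · set P : Set (U × U) := {p | (∃ x, (p.1, x) ∈ I) ∧ (∃ x, (p.2, x) ∈ I) ∧ H.Adj p.1 p.2}
      have h1 : P.toFinset.card ≤ 2 * (E y).card := by
        refine card_le_mul_card_image_of_maps_to (f := fun p : U × U => s(p.1, p.2)) ?_ 2 ?_
        · intro p hp
          rw [Set.mem_toFinset] at hp
          obtain ⟨h1, h2, h3⟩ := hp
          obtain ⟨a, ha⟩ := hy2 _ h1
          obtain ⟨b, hb⟩ := hy2 _ h2
          exact mem_filter.2 ⟨mem_univ _, p.1, p.2, a, b, rfl, h3, ha, hb⟩
        · intro e he
          induction e using Sym2.ind with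
          | _ u v =>
            refine (card_le_card (t := {(u, v), (v, u)}) ?_).trans card_le_two
            intro p hp
            have h2 := (mem_filter.1 hp).2
            rw [Sym2.eq_iff] at h2
            rw [mem_insert, mem_singleton]
            rcases h2 with ⟨h2, h3⟩ | ⟨h2, h3⟩
            · exact Or.inl (Prod.ext h2 h3)
            · exact Or.inr (Prod.ext h2 h3)
      have h2 : P.ncard = P.toFinset.card := Set.ncard_eq_toFinset_card' P
      have h3 : 2 * C * Fintype.card U ≤ P.ncard := hn
      rw [h2] at h3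
      have h4 : 2 * (C * Fintype.card U) ≤ 2 * (E y).card := by
        rw [← mul_assoc]
        exact h3.trans h1
      omega
    · rw [Fintype.mem_piFinset]
      intro e
      refine mem_filter.2 ⟨mem_univ _, ?_⟩
      rintro u v a b rfl h1 h2 h3 h4
      exact hI (u, a) (hy u a h2) (v, b) (hy v b h3) h1 h4.symm
  have h1 := (card_le_card hcov).trans card_biUnion_le
  rw [card_univ, Fintype.card_fun, ZMod.card, ← hN] at h1
  have h2 : ((q ^ N : ℕ) : ℝ) ≤ ∑ y ∈ univ.filter (fun y : U → Option (ZMod q) =>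
      C * Fintype.card U ≤ (E y).card), ((Fintype.piFinset (S y)).card : ℝ) := by
    exact_mod_cast h1
  have h3 : ∑ y ∈ univ.filter (fun y : U → Option (ZMod q) =>
      C * Fintype.card U ≤ (E y).card), ((Fintype.piFinset (S y)).card : ℝ) ≤
      (q + 1 : ℝ) ^ Fintype.card U * (q ^ N * (1 - 1 / q) ^ (C * Fintype.card U)) := by
    refine (sum_le_sum fun y hy => hbad y (mem_filter.1 hy).2).trans ?_
    rw [sum_const, nsmul_eq_mul]
    refine mul_le_mul_of_nonneg_right ?_ (by positivity)
    have h4 := card_filter_le (univ : Finset (U → Option (ZMod q)))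
      (fun y => C * Fintype.card U ≤ (E y).card)
    rw [card_univ, Fintype.card_fun, Fintype.card_option, ZMod.card] at h4
    exact_mod_cast h4
  have h4 : (q + 1 : ℝ) ^ Fintype.card U * (q ^ N * (1 - 1 / q) ^ (C * Fintype.card U)) =
      q ^ N * ((q + 1 : ℝ) * (1 - 1 / q) ^ C) ^ Fintype.card U := by
    rw [mul_pow, pow_mul]
    ring
  have h5 : ((q + 1 : ℝ) * (1 - 1 / q) ^ C) ^ Fintype.card U < 1 :=
    pow_lt_one₀ (by positivity) hlt Fintype.card_ne_zero
  have h6 : (0 : ℝ) < q ^ N := by positivity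
  push_cast at h2
  rw [h4] at h3
  have h7 := h2.trans h3
  nlinarith

end Pool.Agent.Helper78K9.LC
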