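import Pool.Agent.Helper78K9.LC.Stm

/-! # Vertex cover from local statistics: [VIEW] -/

set_option autoImplicit false

namespace Pool.Agent.Helper78K9.LC

open Classical

open Pool.Agent.Helper62K9.SD (lift Alike lift_adj)
open Pool.Agent.TH912.LS (NoOdd ball SameView W)

section view

variable {V : Type}

theorem lift_flip (K F : SimpleGraph V) (u v : V) (i j p q : Bool) (h : p ≠ q) :
    (lift K F).Adj (u, i) (v, j) ↔ (lift F K).Adj (u, i ^^ p) (v, j ^^ q) := by
  rw [lift_adj, lift_adj]
  cases i <;> cases j <;> cases p <;> cases q <;> simp_all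

theorem walk_flip (K F : SimpleGraph V) : ∀ (x y : V × Bool) (w : (lift K F).Walk x y) (a : Bool),
    ∃ w' : (lift F K).Walk (x.1, x.2 ^^ a) (y.1, y.2 ^^ (a ^^ w.length.bodd)),
      w'.length = w.length := by
  intro x y w
  induction w with
  | nil =>
    intro a
    refine ⟨(SimpleGraph.Walk.nil : (lift F K).Walk _ _).copy rfl (by simp), ?_⟩
    rw [SimpleGraph.Walk.length_copy]
    rfl
  | @cons x z y h w ih =>
    intro a
    obtain ⟨w', h1⟩ := ih (!a)
    have hadj : (lift F K).Adj (x.1, x.2 ^^ a) (z.1, z.2 ^^ !a) :=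
      (lift_flip K F x.1 z.1 x.2 z.2 a (!a) (by cases a <;> simp)).mp h
    have he : (y.1, y.2 ^^ (!a ^^ w.length.bodd)) =
        (y.1, y.2 ^^ (a ^^ (SimpleGraph.Walk.cons h w).length.bodd)) := by
      rw [SimpleGraph.Walk.length_cons, Nat.bodd_succ]
      cases a <;> simp
    refine ⟨(SimpleGraph.Walk.cons hadj w').copy rfl he, ?_⟩
    rw [SimpleGraph.Walk.length_copy, SimpleGraph.Walk.length_cons, SimpleGraph.Walk.length_cons,
      h1]

theorem walk_down (K F G : SimpleGraph V) (hK : ∀ u v, K.Adj u v → G.Adj u v)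
    (hF : ∀ u v, F.Adj u v → G.Adj u v) : ∀ (x y : V × Bool) (w : (lift K F).Walk x y),
    ∃ w' : G.Walk x.1 y.1, w'.length = w.length := by
  intro x y w
  induction w with
  | nil => exact ⟨SimpleGraph.Walk.nil, by simp⟩
  | @cons x z y h w ih =>
    obtain ⟨w', h1⟩ := ih
    have hadj : G.Adj x.1 z.1 := by
      rcases h with h | h
      · exact hK _ _ h.1
      · exact hF _ _ h.1
    exact ⟨SimpleGraph.Walk.cons hadj w', by simp [h1]⟩

/-- the parity of the vertex `x` as seen from `v` -/
noncomputable def par (G : SimpleGraph V) (r : ℕ) (v x : V) : Bool := decide (W G r v x true)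

theorem par_eq {G : SimpleGraph V} {r : ℕ} (hG : NoOdd G (2 * r + 1)) {v x : V} {p : Bool}
    (h : W G r v x p) : par G r v x = p := by
  unfold par
  cases p with
  | true => exact decide_eq_true h
  | false =>
    apply decide_eq_false
    intro h'
    apply hG v
    exact (h'.trans h.symm).mono (by omega)

theorem ball_par {K F G : SimpleGraph V} (hK : ∀ u v, K.Adj u v → G.Adj u v)
    (hF : ∀ u v, F.Adj u v → G.Adj u v) {r : ℕ} {v x : V × Bool}
    (hx : x ∈ ball (lift K F) v r) (hG : NoOdd G (2 * r + 1)) :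
    W G r v.1 x.1 (par G r v.1 x.1) ∧ (x.1, x.2 ^^ par G r v.1 x.1) ∈ ball (lift F K) v r := by
  obtain ⟨w, hw⟩ := hx
  obtain ⟨w', h1⟩ := walk_down K F G hK hF v x w
  have h2 : W G r v.1 x.1 w.length.bodd := ⟨w', by omega, by rw [h1]⟩
  have h3 := par_eq hG h2
  rw [h3]
  refine ⟨h2, ?_⟩
  obtain ⟨w'', h4⟩ := walk_flip K F v x w false
  refine ⟨w''.copy (by simp) (by simp), ?_⟩
  rw [SimpleGraph.Walk.length_copy]
  omega

end view

theorem view : S_VIEW := by
  intro V K F r hG v
  set G := K ⊔ F with hGdef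
  have hK : ∀ u v, K.Adj u v → G.Adj u v := fun u v h => Or.inl h
  have hF : ∀ u v, F.Adj u v → G.Adj u v := fun u v h => Or.inr h
  have hvp : par G r v.1 v.1 = false := par_eq hG ⟨SimpleGraph.Walk.nil, by simp, by simp⟩
  let e : ball (lift K F) v r ≃ ball (lift F K) v r :=
    { toFun := fun x => ⟨(x.1.1, x.1.2 ^^ par G r v.1 x.1.1), (ball_par hK hF x.2 hG).2⟩
      invFun := fun x => ⟨(x.1.1, x.1.2 ^^ par G r v.1 x.1.1), (ball_par hF hK x.2 hG).2⟩
      left_inv := by
        rintro ⟨⟨x, i⟩, hx⟩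
        simp
      right_inv := by
        rintro ⟨⟨x, i⟩, hx⟩
        simp }
  refine ⟨e, ?_, ?_, fun _ => rfl⟩
  · rintro ⟨⟨x, i⟩, hx⟩
    show (x, i) = v ↔ (x, i ^^ par G r v.1 x) = v
    constructor
    · rintro h
      subst h
      simp only at hvp
      rw [hvp]
      simp
    · intro h
      have h1 : x = v.1 := congrArg Prod.fst h
      rw [h1, hvp, Bool.xor_false] at h
      rw [h1]
      exact h
  · rintro ⟨⟨x, i⟩, hx⟩ ⟨⟨y, j⟩, hy⟩
    show (lift K F).Adj (x, i) (y, j) ↔
      (lift F K).Adj (x, i ^^ par G r v.1 x) (y, j ^^ par G r v.1 y)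
    by_cases hxy : G.Adj x y
    · apply lift_flip
      intro heq
      have h1 := (ball_par hK hF hx hG).1
      have h2 := (ball_par hK hF hy hG).1
      simp only at h1 h2
      have h4 := (h1.trans (W.adj hxy)).trans h2.symm
      have h5 : ((par G r v.1 x ^^ true) ^^ par G r v.1 y) = true := by
        rw [heq]
        cases par G r v.1 y <;> simp
      rw [h5] at h4
      exact hG v.1 (h4.mono (by omega))
    · constructor
      · rintro (h | h)
        · exact absurd (hK _ _ h.1) hxy
        · exact absurd (hF _ _ h.1) hxy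
      · rintro (h | h)
        · exact absurd (hF _ _ h.1) hxy
        · exact absurd (hK _ _ h.1) hxy

end Pool.Agent.Helper78K9.LC
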