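import Pool.Agent.Helper78K9.LC.Main2
import Pool.Agent.Helper78K9.LC.Chpx
import Pool.Agent.Helper78K9.LC.Loc
import Pool.Agent.Helper78K9.LC.View
import Pool.Agent.Helper78K9.LC.Edg
import Pool.Agent.Helper78K9.LC.Uni
import Pool.Agent.Helper78K9.LC.Sml
import Pool.Agent.Helper78K9.LC.Conn
import Pool.Agent.Helper78K9.LC.Lcn
import Pool.Agent.Helper78K9.LC.Nox

/-!
# All parts together
-/

set_option autoImplicit false

namespace Pool.Agent.Helper78K9.LC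

open Pool.Agent.Helper62K9.DV (vc)

theorem all_graphs (k : ℕ) (hk : 1 ≤ k) : ∃ (D : ℕ) (δ : ℝ), 0 < δ ∧ ∀ N : ℕ,
    ∃ (V : Type) (_ : Fintype V)
      (G₁ G₂ : SimpleGraph V), N ≤ Fintype.card V ∧ G₁.Connected ∧ G₂.Connected ∧
      (∀ v, (G₁.neighborSet v).ncard ≤ D ∧ (G₂.neighborSet v).ncard ≤ D) ∧
      SameData (δ * Real.log (Fintype.card V)) G₁ G₂ ∧
      (vc G₁ : ℝ) ≤ (1 / 2 + 1 / k) * Fintype.card V ∧
      (1 - 2 / (k : ℝ)) * Fintype.card V ≤ vc G₂ :=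
  Con.graphs chpx loc view edg uni (con sml) lcn (nox sml) k hk

theorem all_no_ratio (c : ℝ) (hc : c < 2) : ∃ (D : ℕ) (δ : ℝ), 0 < δ ∧
    ∀ Φ : (∀ (V : Type) [Fintype V], SimpleGraph V → ℝ),
      (∀ (V : Type) [Fintype V] (G H : SimpleGraph V),
        SameData (δ * Real.log (Fintype.card V)) G H → Φ V G = Φ V H) →
      ∀ N : ℕ, ∃ (V : Type) (_ : Fintype V) (G : SimpleGraph V), N ≤ Fintype.card V ∧
        G.Connected ∧ (∀ v, (G.neighborSet v).ncard ≤ D) ∧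
        ¬ ((vc G : ℝ) ≤ Φ V G ∧ Φ V G ≤ c * vc G) :=
  Con.no_ratio chpx loc view edg uni (con sml) lcn (nox sml) c hc

end Pool.Agent.Helper78K9.LC
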