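import Pool.Agent.Helper78K9.LC.Stm

/-!
# The reflection cover without large independent sets
-/

set_option autoImplicit false

namespace Pool.Agent.Helper78K9.LC

open Finset Filter

/-- reflection covers of graphs with a small independence number have a small independence number for
some choice of the constants -/
theorem rnd (hedg : S_EDG) (huni : S_UNI) (k : ℕ) (hk : 1 ≤ k) : ∃ q k' : ℕ, q.Prime ∧ q ≠ 2 ∧ k ≤ q ∧
    1 ≤ k' ∧ ∀ (U : Type) [Fintype U] [Nonempty U] (H : SimpleGraph U),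
      (∀ A : Set U, H.IsIndepSet A → k' * A.ncard ≤ 2 * Fintype.card U) →
      ∃ c : Sym2 U → ZMod q, ∀ I : Finset (U × ZMod q),
        (∀ p ∈ I, ∀ p' ∈ I, H.Adj p.1 p'.1 → p.2 + p'.2 ≠ c s(p.1, p'.1)) →
        k * I.card ≤ q * Fintype.card U := by
  classical
  obtain ⟨q, hqk, hq⟩ := Nat.exists_infinite_primes (k + 3)
  have : NeZero q := ⟨hq.ne_zero⟩
  have hq0 : (0 : ℝ) < q := by exact_mod_cast hq.pos
  have hr0 : (0 : ℝ) ≤ 1 - 1 / q := by
    rw [sub_nonneg, div_le_one hq0]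
    exact_mod_cast hq.one_lt.le
  have hr1 : (1 : ℝ) - 1 / q < 1 := by
    have : (0 : ℝ) < 1 / q := by positivity
    linarith
  obtain ⟨C₀, hC₀⟩ : ∃ C₀ : ℕ, (q + 1 : ℝ) * (1 - 1 / q) ^ C₀ < 1 := by
    have h1 := (tendsto_pow_atTop_nhds_zero_of_lt_one hr0 hr1).const_mul (q + 1 : ℝ)
    rw [mul_zero] at h1
    exact (h1.eventually_lt_const one_pos).exists
  set C : ℕ := 2 * C₀ * k with hC
  refine ⟨q, 4 * (2 * C + 1) * k, hq, by omega, by omega, ?_, ?_⟩
  · have : 0 < 4 * (2 * C + 1) * k := by positivity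
    omega
  intro U _ _ H hH
  obtain ⟨c, hc⟩ := huni q C₀ hC₀ U H
  refine ⟨c, fun I hI => ?_⟩
  have h1 := hc I hI
  by_contra hcon
  push Not at hcon
  set A : Finset U := I.image Prod.fst with hA
  have hIA : I.card ≤ q * A.card := by
    refine (card_le_card (t := A ×ˢ univ) ?_).trans_eq ?_
    · intro p hp
      exact mem_product.2 ⟨mem_image_of_mem _ hp, mem_univ _⟩
    · rw [card_product, card_univ, ZMod.card, mul_comm]
  have hAU : Fintype.card U < k * A.card := by
    have h2 : q * Fintype.card U < q * (k * A.card) := by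
      refine hcon.trans_le ?_
      calc k * I.card ≤ k * (q * A.card) := Nat.mul_le_mul_left _ hIA
        _ = q * (k * A.card) := by ring
    exact lt_of_mul_lt_mul_left h2 (Nat.zero_le _)
  have hmem : ∀ u, u ∈ A ↔ ∃ x, (u, x) ∈ I := by
    intro u
    rw [hA, mem_image]
    constructor
    · rintro ⟨⟨v, x⟩, hp, rfl⟩
      exact ⟨x, hp⟩
    · rintro ⟨x, hx⟩
      exact ⟨(u, x), hx, rfl⟩
  set s : ℕ := 2 * Fintype.card U / (4 * (2 * C + 1) * k) with hs
  have hk' : 0 < 4 * (2 * C + 1) * k := by positivity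
  have h2 := hedg U H A C s ?_ ?_
  · have h3 : {p : U × U | p.1 ∈ A ∧ p.2 ∈ A ∧ H.Adj p.1 p.2} =
        {p : U × U | (∃ x, (p.1, x) ∈ I) ∧ (∃ x, (p.2, x) ∈ I) ∧ H.Adj p.1 p.2} := by
      ext p
      simp only [Set.mem_ofPred_eq, hmem]
    rw [h3] at h2
    have h4 := h2.trans_lt h1
    have h5 : 2 * C₀ * Fintype.card U ≤ C * A.card := by
      rw [hC, mul_assoc (2 * C₀) k]
      exact Nat.mul_le_mul_left _ hAU.le
    omega
  · intro I' hI'
    rw [hs, Nat.le_div_iff_mul_le hk', mul_comm]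
    exact hH I' hI'
  · have h3 : s * (4 * (2 * C + 1) * k) ≤ 2 * Fintype.card U := Nat.div_mul_le_self _ _
    have h4 : k * (2 * (2 * C + 1) * s) < k * A.card := by
      refine lt_of_le_of_lt ?_ hAU
      have h5 : 2 * (k * (2 * (2 * C + 1) * s)) = s * (4 * (2 * C + 1) * k) := by ring
      omega
    exact lt_of_mul_lt_mul_left h4 (Nat.zero_le _)

end Pool.Agent.Helper78K9.LC
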