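import Pool.Agent.Helper78K9.LC.Stm
import Pool.Agent.Helper78K9.LC.Def
import Pool.Agent.Helper78K9.LC.Rnd

/-!
# Assembly
-/

set_option autoImplicit false

namespace Pool.Agent.Helper78K9.LC

open Finset
open Pool.Agent.Helper62K9.SD (lift lift_adj Alike ncard_lift)
open Pool.Agent.Helper62K9.DV (vc vc_le exists_cover)
open Pool.Agent.TH912.LS (NoOdd ball SameView W)

section

variable {U : Type} (H : SimpleGraph U) (q : ℕ) (c : Sym2 U → ZMod q)

/-- the projection to `U` -/
def proj : VV U q → U
  | .inl (u, _) => u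
  | .inr u => u

theorem proj_adj {x y : VV U q} (h : (base H q ⊔ cover H q c).Adj x y) :
    H.Adj (proj q x) (proj q y) := by
  rw [SimpleGraph.sup_adj] at h
  obtain ⟨u, a⟩ | u := x <;> obtain ⟨v, b⟩ | v := y <;> rcases h with h | h
  · exact absurd h (by simp [base])
  · exact h.1
  · exact absurd h (by simp [base])
  · exact absurd h (by simp [cover])
  · exact absurd h (by simp [base])
  · exact absurd h (by simp [cover])
  · exact h
  · exact absurd h (by simp [cover])

theorem noOdd {m : ℕ} (hH : NoOdd H m) : NoOdd (base H q ⊔ cover H q c) m := by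
  rintro x ⟨w, hw, hp⟩
  let f : (base H q ⊔ cover H q c) →g H := ⟨proj q, fun {a b} h => proj_adj H q c h⟩
  refine hH (proj q x) ⟨w.map f, ?_, ?_⟩
  · rw [SimpleGraph.Walk.length_map]
    exact hw
  · rw [SimpleGraph.Walk.length_map]
    exact hp

variable [Fintype U] [NeZero q]

theorem ncard_cover (v : VV U q) :
    ((cover H q c).neighborSet v).ncard + ((base H q).neighborSet v).ncard =
      (H.neighborSet (proj q v)).ncard := by
  obtain ⟨u, x⟩ | u := v
  · have h1 : (base H q).neighborSet (.inl (u, x)) = ∅ := by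
      ext (⟨v, y⟩ | v) <;> simp [base]
    have h2 : (cover H q c).neighborSet (.inl (u, x)) =
        (fun v => Sum.inl (v, c s(u, v) - x)) '' H.neighborSet u := by
      ext (⟨v, y⟩ | v)
      · simp only [SimpleGraph.mem_neighborSet, cover, Set.mem_image, Sum.inl.injEq, Prod.mk.injEq]
        constructor
        · rintro ⟨h3, h4⟩
          exact ⟨v, h3, rfl, by rw [← h4]; ring⟩
        · rintro ⟨v', h3, rfl, rfl⟩
          exact ⟨h3, by ring⟩
      · simp [cover]
    rw [h1, h2, Set.ncard_empty, add_zero, Set.ncard_image_of_injective]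
    · rfl
    · intro a b h
      simp only [Sum.inl.injEq, Prod.mk.injEq] at h
      exact h.1
  · have h1 : (cover H q c).neighborSet (.inr u) = ∅ := by
      ext (⟨v, y⟩ | v) <;> simp [cover]
    have h2 : (base H q).neighborSet (.inr u) = Sum.inr '' H.neighborSet u := by
      ext (⟨v, y⟩ | v) <;> simp [base]
    rw [h1, h2, Set.ncard_empty, zero_add, Set.ncard_image_of_injective _ Sum.inr_injective]
    rfl

theorem vc_upper : vc (lift (base H q) (cover H q c)) ≤ (q + 2) * Fintype.card U := by
  classical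
  set S : Finset (VV U q × Bool) :=
    (univ.image fun p : U × ZMod q => (Sum.inl p, true)) ∪
      (univ.image fun s : U × Bool => (Sum.inr s.1, s.2)) with hS
  have hcov : (lift (base H q) (cover H q c)).IsVertexCover (S : Set (VV U q × Bool)) := by
    rintro ⟨u, a⟩ ⟨v, b⟩ huv
    rw [lift_adj] at huv
    have hr : ∀ (s : U) (b : Bool), ((Sum.inr s, b) : VV U q × Bool) ∈
        (S : Set (VV U q × Bool)) := by
      intro s b
      simp [hS]
    have hl : ∀ p : U × ZMod q, ((Sum.inl p, true) : VV U q × Bool) ∈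
        (S : Set (VV U q × Bool)) := by
      intro p
      simp [hS]
    obtain p | s := u
    · obtain p' | t := v
      · cases a with
        | true => exact Or.inl (hl _)
        | false =>
          cases b with
          | true => exact Or.inr (hl _)
          | false =>
            exfalso
            simp [base] at huv
      · exact Or.inr (hr _ _)
    · exact Or.inl (hr _ _)
  refine (vc_le _ S hcov).trans ((card_union_le _ _).trans ?_)
  have h1 : (univ.image fun p : U × ZMod q => ((Sum.inl p, true) : VV U q × Bool)).card ≤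
      q * Fintype.card U := by
    refine card_image_le.trans ?_
    rw [card_univ, Fintype.card_prod, ZMod.card, mul_comm]
  have h2 : (univ.image fun s : U × Bool => ((Sum.inr s.1, s.2) : VV U q × Bool)).card ≤
      2 * Fintype.card U := by
    refine card_image_le.trans ?_
    rw [card_univ, Fintype.card_prod, Fintype.card_bool, mul_comm]
  rw [add_mul]
  exact add_le_add h1 h2

theorem vc_lower {k : ℕ} (hI : ∀ I : Finset (U × ZMod q),
    (∀ p ∈ I, ∀ p' ∈ I, H.Adj p.1 p'.1 → p.2 + p'.2 ≠ c s(p.1, p'.1)) →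
    k * I.card ≤ q * Fintype.card U) :
    2 * k * (q * Fintype.card U) ≤
      k * vc (lift (cover H q c) (base H q)) + 2 * (q * Fintype.card U) := by
  classical
  obtain ⟨C, hC, hcov⟩ := exists_cover (lift (cover H q c) (base H q))
  rw [← hC]
  set J : Bool → Finset (U × ZMod q) := fun b =>
    univ.filter fun p => ((Sum.inl p, b) : VV U q × Bool) ∉ C with hJ
  set L : Bool → Finset (U × ZMod q) := fun b =>
    univ.filter fun p => ((Sum.inl p, b) : VV U q × Bool) ∈ C with hL
  have hJle : ∀ b, k * (J b).card ≤ q * Fintype.card U := by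
    intro b
    refine hI (J b) ?_
    intro p hp p' hp' hadj heq
    have h1 : ((Sum.inl p, b) : VV U q × Bool) ∉ C := (mem_filter.1 hp).2
    have h2 : ((Sum.inl p', b) : VV U q × Bool) ∉ C := (mem_filter.1 hp').2
    have hadj' : (lift (cover H q c) (base H q)).Adj (Sum.inl p, b) (Sum.inl p', b) := by
      rw [lift_adj]
      exact Or.inl ⟨⟨hadj, heq⟩, rfl⟩
    rcases hcov hadj' with h | h
    · exact h1 h
    · exact h2 h
  have hcompl : ∀ b, (L b).card + (J b).card = q * Fintype.card U := by
    intro b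
    have := card_filter_add_card_filter_not (s := (univ : Finset (U × ZMod q)))
      (fun p => ((Sum.inl p, b) : VV U q × Bool) ∈ C)
    rw [card_univ, Fintype.card_prod, ZMod.card, mul_comm (Fintype.card U)] at this
    exact this
  have hsum : (L true).card + (L false).card ≤ C.card := by
    rw [← card_image_of_injective (L true) (f := fun p => ((Sum.inl p, true) : VV U q × Bool))
        (fun a b h => by simpa using h),
        ← card_image_of_injective (L false) (f := fun p => ((Sum.inl p, false) : VV U q × Bool))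
        (fun a b h => by simpa using h), ← card_union_of_disjoint]
    · refine card_le_card ?_
      intro z hz
      rcases mem_union.1 hz with hz | hz
      · obtain ⟨p, hp, rfl⟩ := mem_image.1 hz
        exact (mem_filter.1 hp).2
      · obtain ⟨p, hp, rfl⟩ := mem_image.1 hz
        exact (mem_filter.1 hp).2
    · rw [Finset.disjoint_left]
      rintro z hz hz'
      obtain ⟨p, -, rfl⟩ := mem_image.1 hz
      obtain ⟨p', -, h⟩ := mem_image.1 hz'
      simp at h
  have h1 := hJle true
  have h2 := hJle false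
  have h3 := hcompl true
  have h4 := hcompl false
  have h5 : k * ((L true).card + (L false).card) ≤ k * C.card := Nat.mul_le_mul_left _ hsum
  have h6 : k * ((L true).card + (J true).card) = k * (q * Fintype.card U) := by rw [h3]
  have h7 : k * ((L false).card + (J false).card) = k * (q * Fintype.card U) := by rw [h4]
  have h8 : 2 * k * (q * Fintype.card U) = k * (q * Fintype.card U) + k * (q * Fintype.card U) := by
    ring
  rw [mul_add] at h5 h6 h7
  omega

end

/-- the two graphs -/
theorem graphs (hchp : S_CHP) (hloc : S_LOC) (hview : S_VIEW) (hedg : S_EDG) (huni : S_UNI)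
    (k : ℕ) (hk : 1 ≤ k) : ∃ (D : ℕ) (δ : ℝ), 0 < δ ∧ ∀ N : ℕ, ∃ (V : Type) (_ : Fintype V)
      (G₁ G₂ : SimpleGraph V), N ≤ Fintype.card V ∧
      (∀ v, (G₁.neighborSet v).ncard ≤ D ∧ (G₂.neighborSet v).ncard ≤ D) ∧
      SameData (δ * Real.log (Fintype.card V)) G₁ G₂ ∧
      (vc G₁ : ℝ) ≤ (1 / 2 + 1 / k) * Fintype.card V ∧
      (1 - 2 / (k : ℝ)) * Fintype.card V ≤ vc G₂ := by
  classical
  obtain ⟨q, k', hq, hq2, hkq, hk', hrnd⟩ := rnd hedg huni k hk
  have : NeZero q := ⟨hq.ne_zero⟩
  set B : ℝ := 2 * k' * (8 * k' + 1) with hB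
  have hk'1 : (1 : ℝ) ≤ k' := by exact_mod_cast hk'
  have hB1 : 1 < B := by rw [hB]; nlinarith
  have hlB : 0 < Real.log B := Real.log_pos hB1
  have hq0 : (0 : ℝ) < q := by exact_mod_cast hq.pos
  have hlq : 0 ≤ Real.log (2 * (q + 1)) := Real.log_nonneg (by linarith)
  -- `log |V| ≤ T (r + 1)`
  set T : ℝ := Real.log (2 * (q + 1)) + 11 * Real.log B with hT
  have hT0 : 0 < T := by positivity
  refine ⟨32 * (2 * k' * (8 * k' + 1)), 1 / (2 * T), by positivity, fun N => ?_⟩
  -- the girth
  set r : ℕ := N + 1 with hr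
  obtain ⟨U, _, H, hU1, hU2, hdeg, hodd, hind⟩ :=
    Pool.Agent.TH912.LS.base k' (2 * r + 1) hk'
  have hUpos : 0 < Fintype.card U := by omega
  have : Nonempty U := Fintype.card_pos_iff.1 hUpos
  obtain ⟨c, hc⟩ := hrnd U H hind
  have hcard : Fintype.card (VV U q × Bool) = 2 * (q + 1) * Fintype.card U := by
    rw [Fintype.card_prod, Fintype.card_sum, Fintype.card_prod, ZMod.card, Fintype.card_bool]
    ring
  have hcardR : (Fintype.card (VV U q × Bool) : ℝ) = 2 * (q + 1) * Fintype.card U := by
    rw [hcard]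
    push_cast
    ring
  have hU0 : (0 : ℝ) < Fintype.card U := by exact_mod_cast hUpos
  have hlog : 1 / (2 * T) * Real.log (Fintype.card (VV U q × Bool)) ≤ r := by
    have h1 : Real.log (Fintype.card U) ≤ (2 * (2 * r + 1 : ℕ) + 5 : ℕ) * Real.log B := by
      rw [← Real.log_pow]
      refine Real.log_le_log hU0 ?_
      rw [hB]
      exact hU2
    have h2 : Real.log (Fintype.card (VV U q × Bool)) ≤ 2 * T * r := by
      rw [hcardR, Real.log_mul (by positivity) hU0.ne']
      have hr1 : (1 : ℝ) ≤ r := by exact_mod_cast (by omega : 1 ≤ r)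
      push_cast at h1
      have h3 : Real.log (2 * (q + 1)) ≤ 2 * Real.log (2 * (q + 1)) * r := by nlinarith
      have h4 : (2 * (2 * (r : ℝ) + 1) + 5) * Real.log B ≤ 22 * Real.log B * r := by nlinarith
      rw [hT]
      nlinarith
    rw [div_mul_eq_mul_div, one_mul, div_le_iff₀ (by positivity)]
    linarith
  have hQ : NoOdd (base H q ⊔ cover H q c) (2 * r + 1) := noOdd H q c hodd
  have hloc' := hloc (VV U q) (base H q) (cover H q c) (2 * r + 1) hQ
  have hr0 : (0 : ℝ) ≤ r := by positivity
  refine ⟨VV U q × Bool, inferInstance, lift (base H q) (cover H q c), lift (cover H q c) (base H q),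
    ?_, ?_, ⟨?_, ?_, ?_, ?_⟩, ?_, ?_⟩
  · rw [hcard]
    have h1 : 2 * Fintype.card U ≤ 2 * (q + 1) * Fintype.card U :=
      Nat.mul_le_mul_right _ (by omega)
    omega
  · rintro ⟨v, b⟩
    have h1 := hdeg (proj q v)
    have h2 := ncard_cover H q c v
    rw [ncard_lift, ncard_lift]
    omega
  · exact hchp U H q hq hq2 c
  · intro W _ X hX
    refine hloc'.1 W X ?_
    rcases hX with hX | ⟨w, p, h1, h2⟩
    · exact Or.inl hX
    · refine Or.inr ⟨w, p, h1, ?_⟩
      have h3 := h2.trans hlog
      have h4 : p.length ≤ r := by exact_mod_cast h3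
      omega
  · intro W _ X hX
    refine hloc'.2 W X ?_
    have h3 := hX.trans hlog
    have h4 : Nat.card W ≤ r := by exact_mod_cast h3
    omega
  · intro s hs v
    have h3 := hs.trans hlog
    have h4 : s ≤ r := by exact_mod_cast h3
    exact hview (VV U q) (base H q) (cover H q c) s (hQ.mono (by omega)) v
  · have h1 : (vc (lift (base H q) (cover H q c)) : ℝ) ≤ (q + 2) * Fintype.card U := by
      exact_mod_cast vc_upper H q c
    refine h1.trans ?_
    rw [hcardR]
    have hk0 : (0 : ℝ) < k := by exact_mod_cast hk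
    have hkq' : (k : ℝ) ≤ q := by exact_mod_cast hkq
    have h2 : 1 ≤ 1 / (k : ℝ) * (q + 1) := by
      rw [div_mul_eq_mul_div, one_mul, le_div_iff₀ hk0]
      linarith
    nlinarith
  · have h1 := vc_lower H q c hc
    have hk0 : (0 : ℝ) < k := by exact_mod_cast hk
    have hkq' : (k : ℝ) ≤ q := by exact_mod_cast hkq
    have h2 : 2 * k * (q * (Fintype.card U : ℝ)) ≤
        k * (vc (lift (cover H q c) (base H q)) : ℝ) + 2 * (q * Fintype.card U) := by
      exact_mod_cast h1
    rw [hcardR]
    have h3 : (1 - 2 / (k : ℝ)) * (2 * (q + 1) * Fintype.card U) =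
        (2 * (k - 2) * (q + 1) * Fintype.card U) / k := by
      field_simp
    rw [h3, div_le_iff₀ hk0]
    nlinarith

/-- no function of the data has a ratio below two -/
theorem no_ratio (hchp : S_CHP) (hloc : S_LOC) (hview : S_VIEW) (hedg : S_EDG) (huni : S_UNI)
    (c : ℝ) (hc : c < 2) : ∃ (D : ℕ) (δ : ℝ), 0 < δ ∧
    ∀ Φ : (∀ (V : Type) [Fintype V], SimpleGraph V → ℝ),
      (∀ (V : Type) [Fintype V] (G H : SimpleGraph V),
        SameData (δ * Real.log (Fintype.card V)) G H → Φ V G = Φ V H) →
      ∀ N : ℕ, ∃ (V : Type) (_ : Fintype V) (G : SimpleGraph V), N ≤ Fintype.card V ∧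
        (∀ v, (G.neighborSet v).ncard ≤ D) ∧
        ¬ ((vc G : ℝ) ≤ Φ V G ∧ Φ V G ≤ c * vc G) := by
  set c' : ℝ := max c 0 with hc'
  have hc'0 : 0 ≤ c' := le_max_right _ _
  have hc'2 : c' < 2 := max_lt hc (by norm_num)
  obtain ⟨k, hk⟩ := exists_nat_gt (8 / (2 - c'))
  have h2c : 0 < 2 - c' := by linarith
  have hk0 : (0 : ℝ) < k := lt_trans (by positivity) hk
  have hk1 : 1 ≤ k := by
    have : (0 : ℝ) < k := hk0
    exact_mod_cast this
  have hk8 : 8 / (k : ℝ) < 2 - c' := by
    rw [div_lt_iff₀ h2c] at hk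
    rw [div_lt_iff₀ hk0]
    linarith
  obtain ⟨D, δ, hδ, hg⟩ := graphs hchp hloc hview hedg huni k hk1
  refine ⟨D, δ, hδ, fun Φ hΦ N => ?_⟩
  obtain ⟨V, _, G₁, G₂, hN, hD, hS, h1, h2⟩ := hg (max N 1)
  have hN1 : N ≤ Fintype.card V := (le_max_left _ _).trans hN
  have hV : (1 : ℝ) ≤ Fintype.card V := by
    exact_mod_cast (le_max_right N 1).trans hN
  by_contra hcon
  push Not at hcon
  have h3 := hcon V _ G₁ hN1 fun v => (hD v).1
  have h4 := hcon V _ G₂ hN1 fun v => (hD v).2
  have h5 := hΦ V G₁ G₂ hS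
  have h6 : c * (vc G₁ : ℝ) ≤ c' * vc G₁ :=
    mul_le_mul_of_nonneg_right (le_max_left _ _) (Nat.cast_nonneg _)
  have h7 : c' * (vc G₁ : ℝ) ≤ c' * ((1 / 2 + 1 / k) * Fintype.card V) :=
    mul_le_mul_of_nonneg_left h1 hc'0
  have h8 : (vc G₂ : ℝ) ≤ c' * ((1 / 2 + 1 / k) * Fintype.card V) := by
    linarith [h3.2, h4.1]
  have h9 : (1 - 2 / (k : ℝ)) * Fintype.card V ≤ c' * ((1 / 2 + 1 / k) * Fintype.card V) :=
    h2.trans h8
  have h10 : (1 - 2 / (k : ℝ)) ≤ c' * (1 / 2 + 1 / k) := by
    have h11 : (1 - 2 / (k : ℝ)) * Fintype.card V ≤ (c' * (1 / 2 + 1 / k)) * Fintype.card V := by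
      linarith
    exact le_of_mul_le_mul_right h11 (by linarith)
  have h12 : c' * (1 / (k : ℝ)) ≤ 2 * (1 / k) := mul_le_mul_of_nonneg_right hc'2.le (by positivity)
  have h13 : 8 / (k : ℝ) = 8 * (1 / k) := by ring
  have h14 : 2 / (k : ℝ) = 2 * (1 / k) := by ring
  have h15 : (0 : ℝ) < 1 / k := by positivity
  rw [h13] at hk8
  rw [h14] at h10
  nlinarith

end Pool.Agent.Helper78K9.LC
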