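import Pool.Agent.Helper62K9.SD.Final
import Pool.Agent.TH912.LS.Base2

/-!
# Vertex cover from local statistics, the spectrum and the double cover: definitions and leaves

`lift K F` (`Helper62K9.SD.Lift`): vertices `V × Bool`, the edges of `K` keep the sheet and the edges
of `F` change it. `Alike` (`Helper62K9.SD.Final`): same characteristic polynomial and isomorphic
bipartite double covers. `NoOdd G L` (`TH912.LS.Lift`): no closed walk of odd length at most `L`.
`SameView`, `ball`: `TH912.LS.Defs`.
-/

set_option autoImplicit false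

namespace Pool.Agent.Helper78K9.LC

open Pool.Agent.Helper62K9.SD (lift Alike)
open Pool.Agent.TH912.LS (NoOdd ball SameView)

variable {U : Type}

/-- the vertices: `U × ℤ/q` and a copy of `U` -/
abbrev VV (U : Type) (q : ℕ) : Type := (U × ZMod q) ⊕ U

/-- the graph `H` on the copy of `U` -/
def base (H : SimpleGraph U) (q : ℕ) : SimpleGraph (VV U q) where
  Adj
  | .inr u, .inr v => H.Adj u v
  | _, _ => False
  symm := ⟨by rintro (⟨u, x⟩ | u) (⟨v, y⟩ | v) <;> simp [H.adj_comm]⟩
  loopless := ⟨by rintro (⟨u, x⟩ | u) <;> simp⟩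

/-- the reflection cover of `H`: the `q` sheets over the ends of the edge `e` are joined by
`x + y = c e` -/
def cover (H : SimpleGraph U) (q : ℕ) (c : Sym2 U → ZMod q) : SimpleGraph (VV U q) where
  Adj
  | .inl (u, x), .inl (v, y) => H.Adj u v ∧ x + y = c s(u, v)
  | _, _ => False
  symm := ⟨by
    rintro (⟨u, x⟩ | u) (⟨v, y⟩ | v) <;> simp only [imp_self]
    rintro ⟨h1, h2⟩
    exact ⟨h1.symm, by rw [add_comm, h2, Sym2.eq_swap]⟩⟩
  loopless := ⟨by rintro (⟨u, x⟩ | u) <;> simp⟩

/-- [CHP] The two lifts have the same characteristic polynomial. (`Helper62K9.SD.Polar` and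
`charpoly_eq` in `Helper62K9.SD.Main` are the case of the complete graph `H` on `ℤ/q` and `c s(s, t) =
s t`; the same proof: `ρ f (u, x) = f (u, x - 1) - f (u, x + 1) + f u`, `ρ f u = ∑ x, f (u, x)`
anticommutes with the signed adjacency operator and is injective; then `charpoly_lift`. The double
covers: `doubleIso`.) -/
def S_CHP : Prop :=
  ∀ (U : Type) [Fintype U] (H : SimpleGraph U) (q : ℕ) [NeZero q], q.Prime → q ≠ 2 →
    ∀ c : Sym2 U → ZMod q,
      Alike (lift (base H q) (cover H q c)) (lift (cover H q c) (base H q))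

/-- [LOC] The numbers of homomorphisms and of induced copies. (For a bipartite `X` with the
2-colouring `κ` the map `(u, i) ↦ (u, i + κ)`. If `X` has a short closed walk of odd length there are
no homomorphisms, because `lift K F` maps to `K ⊔ F`. For embeddings: a set of at most `m` vertices `A`
of `V` induces a bipartite subgraph of `K ⊔ F`, with a 2-colouring `χ A`; map the embedding `φ` to
`w ↦ (u, i + χ A u)`, `φ w = (u, i)`, `A` the set of the first coordinates of the vertices of `φ`.) -/
def S_LOC : Prop :=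
  ∀ (V : Type) [Fintype V] (K F : SimpleGraph V) (m : ℕ), NoOdd (K ⊔ F) m →
    (∀ (W : Type) [Finite W] (X : SimpleGraph W),
      (X.IsBipartite ∨ ∃ (w : W) (p : X.Walk w w), Odd p.length ∧ p.length ≤ m) →
      Nat.card (X →g lift K F) = Nat.card (X →g lift F K)) ∧
    (∀ (W : Type) [Finite W] (X : SimpleGraph W), Nat.card W ≤ m →
      Nat.card (X ↪g lift K F) = Nat.card (X ↪g lift F K))

/-- [VIEW] The views. (Every vertex of the ball is reached from `v` by walks of length at most `r` of
the same parity `π u`, as `K ⊔ F` has no closed walk of odd length at most `2 r + 1`; the map is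
`(u, i) ↦ (u, i + π u)`.) -/
def S_VIEW : Prop :=
  ∀ (V : Type) (K F : SimpleGraph V) (r : ℕ), NoOdd (K ⊔ F) (2 * r + 1) → ∀ v : V × Bool,
    SameView r (lift K F) (fun _ => ()) v (lift F K) (fun _ => ()) v

/-- [EDG] Many edges. (If there are fewer than `C |A|` pairs of adjacent vertices of `A`, at least half
of the vertices of `A` have degree at most `2 C` in `A`, and a maximal independent set of these
vertices has at least `|A| / (2 (2 C + 1))` vertices.) -/
def S_EDG : Prop :=
  ∀ (U : Type) [Fintype U] (H : SimpleGraph U) (A : Finset U) (C s : ℕ),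
    (∀ I : Set U, H.IsIndepSet I → I.ncard ≤ s) → 2 * (2 * C + 1) * s < A.card →
    C * A.card ≤ {p : U × U | p.1 ∈ A ∧ p.2 ∈ A ∧ H.Adj p.1 p.2}.ncard

/-- [UNI] The union bound. (For a function `y : U → Option (ZMod q)` with at least `C |U|` edges `e` of
`H` between vertices where `y` is defined, at most `q ^ |Sym2 U| (1 - 1/q) ^ (C |U|)` functions `c` satisfy
`c s(u, v) ≠ y u + y v` for all these edges; there are `(q + 1) ^ |U|` functions `y`.) -/
def S_UNI : Prop :=
  ∀ (q C : ℕ) [NeZero q], (q + 1 : ℝ) * (1 - 1 / q) ^ C < 1 →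
    ∀ (U : Type) [Fintype U] [Nonempty U] (H : SimpleGraph U),
    ∃ c : Sym2 U → ZMod q, ∀ I : Finset (U × ZMod q),
      (∀ p ∈ I, ∀ p' ∈ I, H.Adj p.1 p'.1 → p.2 + p'.2 ≠ c s(p.1, p'.1)) →
      {p : U × U | (∃ x, (p.1, x) ∈ I) ∧ (∃ x, (p.2, x) ∈ I) ∧ H.Adj p.1 p.2}.ncard <
        2 * C * Fintype.card U

end Pool.Agent.Helper78K9.LC
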