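import Pool.Agent.Helper78K9.LC.Stm

/-!
# Connected graphs: further leaves
-/

set_option autoImplicit false

namespace Pool.Agent.Helper78K9.LC

open Pool.Agent.Helper62K9.SD (lift Alike)
open Pool.Agent.TH912.LS (NoOdd ball SameView)

variable {U : Type}

/-- a vertex of the cover is joined to the vertex below it -/
def cross (U : Type) (q : ℕ) : SimpleGraph (VV U q) where
  Adj
  | .inl (u, _), .inr v => u = v
  | .inr u, .inl (v, _) => u = v
  | _, _ => False
  symm := ⟨by rintro (⟨u, x⟩ | u) (⟨v, y⟩ | v) <;> simp [eq_comm]⟩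
  loopless := ⟨by rintro (⟨u, x⟩ | u) <;> simp⟩

/-- [CHPX] `S_CHP` with the edges of `cross` added on both sides (they cancel in the difference of the
adjacency matrices, see `diff_mulVec` and `charpoly_eq` in `Helper62K9.SD`). -/
def S_CHPX : Prop :=
  ∀ (U : Type) [Fintype U] (H : SimpleGraph U) (q : ℕ) [NeZero q], q.Prime → q ≠ 2 →
    ∀ c : Sym2 U → ZMod q,
      Alike (lift (base H q ⊔ cross U q) (cover H q c ⊔ cross U q))
        (lift (cover H q c ⊔ cross U q) (base H q ⊔ cross U q))

/-- [SML] A graph has no closed walks of odd length at most `m` iff every set of at most `m` vertices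
induces a bipartite graph. -/
def S_SML : Prop :=
  ∀ (V : Type) (G : SimpleGraph V) (m : ℕ), NoOdd G m ↔
    ∀ A : Finset V, A.card ≤ m → ∃ χ : V → Bool, ∀ u ∈ A, ∀ v ∈ A, G.Adj u v → χ u ≠ χ v

/-- [CON] Joining the components along a path. (Number the components `0, …, r - 1`, with a vertex `rep j`
in each, and add the edges `rep j — rep (j + 1)`. By `S_SML`: if `χ` is a 2-colouring of `H` on `A`, then
`χ u ^^ f (component of u)` with `f (j + 1) = ! (f j ^^ χ (rep j) ^^ χ (rep (j + 1)))` is one of the new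
graph on `A`.) -/
def S_CON : Prop :=
  ∀ (U : Type) [Fintype U] [Nonempty U] (H : SimpleGraph U) (m : ℕ), NoOdd H m →
    ∃ H' : SimpleGraph U, H ≤ H' ∧ H'.Connected ∧ NoOdd H' m ∧
      ∀ u, (H'.neighborSet u).ncard ≤ (H.neighborSet u).ncard + 2

/-- [LCN] The lifts are connected. (See `connected_of` and `connected_lift` in
`Helper62K9.SD.Final`.) -/
def S_LCN : Prop :=
  ∀ (U : Type) (H : SimpleGraph U) (q : ℕ) (c : Sym2 U → ZMod q), H.Connected →
    (lift (base H q ⊔ cross U q) (cover H q c ⊔ cross U q)).Connected ∧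
      (lift (cover H q c ⊔ cross U q) (base H q ⊔ cross U q)).Connected

/-- [NOX] No short odd closed walks. (By `S_SML` twice: project a set `A` of vertices to `U`; if `χ` is a
2-colouring there, colour `inl (u, x)` with `χ u` and `inr u` with `! χ u`.) -/
def S_NOX : Prop :=
  ∀ (U : Type) (H : SimpleGraph U) (q : ℕ) (c : Sym2 U → ZMod q) (m : ℕ), NoOdd H m →
    NoOdd ((base H q ⊔ cross U q) ⊔ (cover H q c ⊔ cross U q)) m

end Pool.Agent.Helper78K9.LC
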